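import Pool.Agent.Lib.MP_2eeeac_ag.Basic

/-!
# The Chow group `CH₀(E₁ × ⋯ × E_m) ⊗ ℚ` of a product of elliptic curves

`k` is a field (`k = ℚ̄` in the main theorem), `E_i : y² = x³ + A_i x + B_i`, `i ∈ I`, are finitely
many elliptic curves over `k`.  Places and specialisation are as in
`Pool/Agent/Lib/MP_2eeeac_ag/Defs.lean`:

* `Ω` is an algebraic closure of `k(t)`; the irreducible curves `V ⊆ (∏ E_i) × ℙ¹` which dominate
  `ℙ¹` correspond to the orbits `O` of `Gal(Ω/k(t))` on `∏ E_i(Ω)`, and the fibre `V(t₀)` is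
  `∑_{Q ∈ O} [π(Q)]` for any place `π` over `t₀`.
* `CH₀(∏ E_i) ⊗ ℚ` is the `ℚ`-vector space on the points of `∏ E_i(k)` modulo the span of all
  `V(t₀) - V(t₁)`.
-/

namespace AlbCH

open WeierstrassCurve WeierstrassCurve.Affine

section mfold

variable {k : Type*} [Field k] {I : Type} (A B : I → k)

/-- the points of `∏ E_i` over `k` -/
abbrev MPt := ∀ i, (Crv (A i) (B i)).Point

/-- the points of `∏ E_i` over `Ω` -/
abbrev MPtOm := ∀ i, (CrvOm (A i) (B i)).Point

/-- A finite subset of `∏ E_i(Ω)` which is an orbit of `Gal(Ω/k(t))`. -/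
def MIsOrbit (O : Finset (MPtOm A B)) : Prop :=
  ∃ Q₀ : MPtOm A B, ∀ Q, Q ∈ O ↔ ∃ σ : Om k ≃ₐ[RatFunc k] Om k, Q = fun i => gal σ (Q₀ i)

variable [∀ i, (Crv (A i) (B i)).IsElliptic]

/-- Zero-cycles with rational coefficients on `∏ E_i`. -/
abbrev MZ0 := MPt A B →₀ ℚ

/-- The rational zero-cycles which are rationally equivalent to zero: the span of the cycles
`V(t₀) - V(t₁)`. -/
noncomputable def MratEquiv : Submodule ℚ (MZ0 A B) :=
  Submodule.span ℚ {r | ∃ (O : Finset (MPtOm A B)) (π₀ π₁ : Place k), MIsOrbit A B O ∧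
    r = ∑ Q ∈ O, (Finsupp.single (fun i => π₀.sp (Q i)) 1
      - Finsupp.single (fun i => π₁.sp (Q i)) 1)}

/-- The Chow group `CH₀(∏ E_i) ⊗ ℚ`. -/
abbrev MCH0Q := MZ0 A B ⧸ MratEquiv A B

variable {A B}

/-- The class of a point. -/
noncomputable def Mcl (Q : MPt A B) : MCH0Q A B :=
  Submodule.Quotient.mk (Finsupp.single Q 1)

end mfold

end AlbCH
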