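import Pool.Agent.Lib.MP_2eeeac_ag.GB
import Pool.Agent.Lib.MP_2eeeac_ag.Iso.MDefs

/-! Module MFA: insertion `E_i × E_j → ∏ E` induces a map of Chow groups. -/

namespace AlbCH

open WeierstrassCurve WeierstrassCurve.Affine

section MFA

variable {k : Type*} [Field k] [IsAlgClosed k] [DecidableEq k] {I : Type} [Fintype I]
  [DecidableEq I] {A B : I → k} [∀ i, (Crv (A i) (B i)).IsElliptic]

omit [IsAlgClosed k] [Fintype I] in
/-- the insertion `E_i × E_j → ∏ E`, `(a, b) ↦` the point with coordinates `a, b` at `i, j` and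
the other coordinates those of `c`, induces a linear map of Chow groups -/
theorem exists_push (i j : I) (hij : i ≠ j) (c : MPt A B) :
    ∃ f : CH0Q (A i) (B i) (A j) (B j) →ₗ[ℚ] MCH0Q A B,
      ∀ a b, f (cl a b) = Mcl (Function.update (Function.update c i a) j b) := by
  classical
  let ins : (Crv (A i) (B i)).Point × (Crv (A j) (B j)).Point → MPt A B :=
    fun Q => Function.update (Function.update c i Q.1) j Q.2
  let cOm : MPtOm A B := fun l => mapPt (algebraMap k (Om k)) rfl rfl (c l)
  let insOm : (CrvOm (A i) (B i)).Point × (CrvOm (A j) (B j)).Point → MPtOm A B :=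
    fun Q => Function.update (Function.update cOm i Q.1) j Q.2
  have hinj : Function.Injective insOm := by
    intro Q Q' h
    have h1 := congrFun h i
    have h2 := congrFun h j
    simp only [insOm, Function.update_self, Function.update_of_ne hij] at h1 h2
    exact Prod.ext h1 h2
  -- specialisation commutes with the insertions
  have hsp : ∀ (π : Place k) (Q : (CrvOm (A i) (B i)).Point × (CrvOm (A j) (B j)).Point),
      (fun l => π.sp (insOm Q l)) = ins (π.sp Q.1, π.sp Q.2) := by
    intro π Q
    funext l
    by_cases hj : l = j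
    · subst hj
      simp only [insOm, ins, Function.update_self]
    · by_cases hi : l = i
      · subst hi
        simp only [insOm, ins, Function.update_self, Function.update_of_ne hij]
      · simp only [insOm, ins, Function.update_of_ne hj, Function.update_of_ne hi]
        exact π.sp_const (c l)
  have hgal : ∀ (σ : Om k ≃ₐ[RatFunc k] Om k)
      (Q : (CrvOm (A i) (B i)).Point × (CrvOm (A j) (B j)).Point),
      (fun l => gal σ (insOm Q l)) = insOm (gal σ Q.1, gal σ Q.2) := by
    intro σ Q
    funext l
    by_cases hj : l = j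
    · subst hj
      simp only [insOm, Function.update_self]
    · by_cases hi : l = i
      · subst hi
        simp only [insOm, Function.update_self, Function.update_of_ne hij]
      · simp only [insOm, Function.update_of_ne hj, Function.update_of_ne hi]
        exact gal_const σ (c l)
  let L : Z0 (A i) (B i) (A j) (B j) →ₗ[ℚ] MZ0 A B := Finsupp.lmapDomain ℚ ℚ ins
  have hL : ratEquiv (A i) (B i) (A j) (B j) ≤ (MratEquiv A B).comap L := by
    unfold ratEquiv
    rw [Submodule.span_le]
    rintro r ⟨O, π₀, π₁, ⟨Q₀, hO⟩, rfl⟩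
    rw [SetLike.mem_coe, Submodule.mem_comap]
    apply Submodule.subset_span
    refine ⟨O.map ⟨insOm, hinj⟩, π₀, π₁, ⟨insOm Q₀, ?_⟩, ?_⟩
    · intro Q
      rw [Finset.mem_map]
      constructor
      · rintro ⟨P, hP, rfl⟩
        obtain ⟨σ, rfl⟩ := (hO P).mp hP
        exact ⟨σ, (hgal σ Q₀).symm⟩
      · rintro ⟨σ, rfl⟩
        exact ⟨(gal σ Q₀.1, gal σ Q₀.2), (hO _).mpr ⟨σ, rfl⟩, (hgal σ Q₀).symm⟩
    · rw [Finset.sum_map, map_sum]
      refine Finset.sum_congr rfl fun Q _ => ?_
      rw [map_sub]
      simp only [L, Finsupp.lmapDomain_apply, Finsupp.mapDomain_single, Function.Embedding.coeFn_mk]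
      rw [hsp π₀ Q, hsp π₁ Q]
  refine ⟨Submodule.mapQ _ _ L hL, fun a b => ?_⟩
  unfold cl Mcl
  rw [Submodule.mapQ_apply]
  simp only [L, Finsupp.lmapDomain_apply, Finsupp.mapDomain_single, ins]

end MFA

end AlbCH
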