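import Pool.Agent.Lib.MP_2eeeac_ag.Basic

/-!
# The Landen tower

`Λ_c : Y² = X (X - 1) (X - c)`.  If `r² = c` and `c' = 4 r / (1 + r)²` then
`(X, Y) ↦ (lX r X, lY r X Y)` is an isogeny of degree two `Λ_{c'} → Λ_c`.
-/

namespace AlbCH

open WeierstrassCurve WeierstrassCurve.Affine

section tower

variable {F : Type*} [Field F]

/-- first coordinate of the two-isogeny `Λ_{c'} → Λ_c`, `c = r²`, `c' = 4r/(1+r)²` -/
def lX (r X : F) : F := X * ((1 + r) ^ 2 * X - 4 * r) / (4 * (X - 1))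

/-- second coordinate of the two-isogeny -/
def lY (r X Y : F) : F :=
  Y * ((1 + r) * ((1 + r) * X - 2) * ((1 + r) * X - 2 * r)) / (8 * (X - 1) ^ 2)

/-- first coordinate of the composite `Λ_{c_n} → Λ_{c_0}` -/
def chX (r : ℕ → F) : ℕ → F → F
  | 0, X => X
  | n + 1, X => chX r n (lX (r n) X)

/-- second coordinate of the composite `Λ_{c_n} → Λ_{c_0}` -/
def chY (r : ℕ → F) : ℕ → F → F → F
  | 0, _, Y => Y
  | n + 1, X, Y => chY r n (lX (r n) X) (lY (r n) X Y)

/-- none of the intermediate points has `X = 1` -/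
def Adm (r : ℕ → F) : ℕ → F → Prop
  | 0, _ => True
  | n + 1, X => X ≠ 1 ∧ Adm r n (lX (r n) X)

/-- A tower of Legendre curves: `r_n² = c_n`, `c_{n+1} = 4 r_n / (1 + r_n)²`. -/
structure Tower (c r : ℕ → F) : Prop where
  sq : ∀ n, r n ^ 2 = c n
  succ : ∀ n, c (n + 1) * (1 + r n) ^ 2 = 4 * r n
  ne0 : c 0 ≠ 0
  ne1 : c 0 ≠ 1

/-- The data of an isogeny `Λ_{c_n} → E`, `E : y² = x³ + A x + B`: the roots of the cubic,
a number `κ` with `κ² = (e₂ - e₁)³`, and a tower starting with `c_0 = (e₃ - e₁)/(e₂ - e₁)`. -/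
structure Dat (A B e₁ e₂ e₃ κ : F) (c r : ℕ → F) : Prop where
  roots : Roots A B e₁ e₂ e₃
  kap : κ ^ 2 = (e₂ - e₁) ^ 3
  c0 : c 0 * (e₂ - e₁) = e₃ - e₁
  tower : Tower c r

/-- The images in `E` of the points with abscissa `x₀` on the Legendre curves `Λ_{c_n}`. -/
def gens (x₀ A B : F) : Set (Crv A B).Point :=
  {P | ∃ (e₁ e₂ e₃ κ : F) (c r : ℕ → F) (n : ℕ) (Y : F), Dat A B e₁ e₂ e₃ κ c r ∧
    Y ^ 2 = x₀ * (x₀ - 1) * (x₀ - c n) ∧ x₀ ≠ c n ∧ Adm r n x₀ ∧
    ∃ h, P = .some (e₁ + (e₂ - e₁) * chX r n x₀) (κ * chY r n x₀ Y) h}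

variable [CharZero F]

theorem Tower.facts {c r : ℕ → F} (h : Tower c r) (n : ℕ) :
    c n ≠ 0 ∧ c n ≠ 1 ∧ r n ≠ 0 ∧ 1 + r n ≠ 0 ∧ 1 - r n ≠ 0 := by
  have key : ∀ n, c n ≠ 0 → c n ≠ 1 → r n ≠ 0 ∧ 1 + r n ≠ 0 ∧ 1 - r n ≠ 0 := by
    intro n h0 h1
    have h2 := h.sq n
    refine ⟨?_, ?_, ?_⟩
    · intro h3; apply h0; rw [← h2, h3]; ring
    · intro h3; apply h1; rw [← h2]; linear_combination (r n - 1) * h3
    · intro h3; apply h1; rw [← h2]; linear_combination (-(r n) - 1) * h3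
  have main : ∀ n, c n ≠ 0 ∧ c n ≠ 1 := by
    intro n
    induction n with
    | zero => exact ⟨h.ne0, h.ne1⟩
    | succ n ih =>
      obtain ⟨h1, h2, h3⟩ := key n ih.1 ih.2
      have h4 := h.succ n
      constructor
      · intro h5
        rw [h5, zero_mul] at h4
        exact h1 (by linear_combination (-1 / 4 : F) * h4)
      · intro h5
        rw [h5, one_mul] at h4
        have : (1 - r n) ^ 2 = 0 := by linear_combination h4
        exact h3 (pow_eq_zero_iff (by norm_num) |>.1 this)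
  exact ⟨(main n).1, (main n).2, key n (main n).1 (main n).2⟩

omit [CharZero F] in
theorem lX_eq (r X : F) (c' : F) (hc' : c' * (1 + r) ^ 2 = 4 * r) :
    lX r X = (1 + r) ^ 2 * (X * (X - c')) / (4 * (X - 1)) := by
  unfold lX
  congr 1
  linear_combination (-X) * (-hc')

theorem l_curve {r c' X Y : F} (hc' : c' * (1 + r) ^ 2 = 4 * r) (hr : 1 + r ≠ 0)
    (h : Y ^ 2 = X * (X - 1) * (X - c')) :
    (lY r X Y) ^ 2 = lX r X * (lX r X - 1) * (lX r X - r ^ 2) := by
  by_cases hX : X = 1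
  · subst hX
    simp [lX, lY]
  have hX1 : X - 1 ≠ 0 := sub_ne_zero.mpr hX
  have hc : c' = 4 * r / (1 + r) ^ 2 := by field_simp; exact hc'
  unfold lX lY
  rw [div_pow, mul_pow, h, hc]
  field_simp
  ring

theorem ch_curve {c r : ℕ → F} (h : Tower c r) (n : ℕ) {X Y : F}
    (hY : Y ^ 2 = X * (X - 1) * (X - c n)) :
    (chY r n X Y) ^ 2 = chX r n X * (chX r n X - 1) * (chX r n X - c 0) := by
  induction n generalizing X Y with
  | zero => exact hY
  | succ n ih =>
    apply ih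
    rw [← h.sq n]
    exact l_curve (h.succ n) (h.facts n).2.2.2.1 hY

omit [CharZero F] in
theorem lY_neg (r X Y : F) : lY r X (-Y) = - lY r X Y := by
  unfold lY
  ring

omit [CharZero F] in
theorem chY_neg (r : ℕ → F) (n : ℕ) (X Y : F) : chY r n X (-Y) = - chY r n X Y := by
  induction n generalizing X Y with
  | zero => rfl
  | succ n ih =>
    change chY r n (lX (r n) X) (lY (r n) X (-Y)) = _
    rw [lY_neg, ih]
    rfl

omit [CharZero F] in
/-- the chain only depends on `r_j` for `j < n` and is compatible with homomorphisms -/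
theorem map_ch {K : Type*} [Field K] (f : F →+* K) (r : ℕ → F) (r' : ℕ → K) (n : ℕ)
    (hr : ∀ j < n, f (r j) = r' j) (X Y : F) :
    f (chX r n X) = chX r' n (f X) ∧ f (chY r n X Y) = chY r' n (f X) (f Y) := by
  induction n generalizing X Y with
  | zero => exact ⟨rfl, rfl⟩
  | succ n ih =>
    have h1 := hr n (Nat.lt_succ_self n)
    obtain ⟨h2, h3⟩ := ih (fun j hj => hr j (hj.trans (Nat.lt_succ_self n))) (lX (r n) X)
      (lY (r n) X Y)
    have e1 : f (lX (r n) X) = lX (r' n) (f X) := by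
      unfold lX
      simp only [map_div₀, map_mul, map_sub, map_add, map_pow, map_one, map_ofNat, h1]
    have e2 : f (lY (r n) X Y) = lY (r' n) (f X) (f Y) := by
      unfold lY
      simp only [map_div₀, map_mul, map_sub, map_add, map_pow, map_one, map_ofNat, h1]
    constructor
    · change f (chX r n (lX (r n) X)) = chX r' n (lX (r' n) (f X))
      rw [h2, e1]
    · change f (chY r n (lX (r n) X) (lY (r n) X Y)) = chY r' n (lX (r' n) (f X)) _
      rw [h3, e1, e2]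

theorem dat_curve {A B e₁ e₂ e₃ κ : F} {c r : ℕ → F} (h : Dat A B e₁ e₂ e₃ κ c r) (n : ℕ)
    {X Y : F} (hY : Y ^ 2 = X * (X - 1) * (X - c n)) :
    (κ * chY r n X Y) ^ 2 = (e₁ + (e₂ - e₁) * chX r n X) ^ 3
      + A * (e₁ + (e₂ - e₁) * chX r n X) + B := by
  have h1 := ch_curve h.tower n hY
  have h2 := h.c0
  have h3 : ∀ x, x ^ 3 + A * x + B = (x - e₁) * (x - e₂) * (x - e₃) := by
    intro x
    obtain ⟨hs, hA, hB⟩ := h.roots
    rw [hA, hB]
    linear_combination x ^ 2 * hs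
  rw [h3, mul_pow, h1, h.kap]
  have h4 : e₃ = e₁ + c 0 * (e₂ - e₁) := by linear_combination -h2
  rw [h4]
  ring

/-- existence of towers over an algebraically closed field, with prescribed `c_0`, `r_0` -/
theorem exists_tower [IsAlgClosed F] (r₀ : F) (h0 : r₀ ^ 2 ≠ 0) (h1 : r₀ ^ 2 ≠ 1) :
    ∃ c r : ℕ → F, Tower c r ∧ c 0 = r₀ ^ 2 ∧ r 0 = r₀ := by
  have hs : ∀ z : F, ∃ w : F, w ^ 2 = z := fun z =>
    IsAlgClosed.exists_pow_nat_eq z (n := 2) (by norm_num)
  choose sq hsq using hs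
  let r : ℕ → F := fun n => Nat.rec r₀ (fun _ s => sq (4 * s / (1 + s) ^ 2)) n
  have hr : ∀ n, r (n + 1) ^ 2 = 4 * r n / (1 + r n) ^ 2 := fun n => hsq _
  have key : ∀ n, r n ^ 2 ≠ 0 ∧ r n ^ 2 ≠ 1 := by
    intro n
    induction n with
    | zero => exact ⟨h0, h1⟩
    | succ n ih =>
      have h3 : r n ≠ 0 := fun h => ih.1 (by rw [h]; ring)
      have h4 : 1 + r n ≠ 0 := fun h => ih.2 (by linear_combination (r n - 1) * h)
      have h5 : 1 - r n ≠ 0 := fun h => ih.2 (by linear_combination (-(r n) - 1) * h)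
      rw [hr]
      constructor
      · exact div_ne_zero (mul_ne_zero (by norm_num) h3) (pow_ne_zero _ h4)
      · intro h
        rw [div_eq_one_iff_eq (pow_ne_zero _ h4)] at h
        apply pow_ne_zero 2 h5
        linear_combination -h
  refine ⟨fun n => r n ^ 2, r, ⟨fun n => rfl, fun n => ?_, h0, h1⟩, rfl, rfl⟩
  have h4 : 1 + r n ≠ 0 := fun h => (key n).2 (by linear_combination (r n - 1) * h)
  change r (n + 1) ^ 2 * (1 + r n) ^ 2 = 4 * r n
  rw [hr]
  field_simp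

end tower

end AlbCH
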