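import Pool.Agent.Lib.MP_2eeeac_ag.Symb
import Pool.Agent.Lib.MP_2eeeac_ag.Iso.Tower

/-! Module G: the symbol of two points coming from the same abscissa vanishes. -/

namespace AlbCH

open WeierstrassCurve WeierstrassCurve.Affine

section places

variable {k : Type*} [Field k] [CharZero k]

omit [CharZero k] in
theorem Place.G_one (π : Place k) : π.Has (1 : Om k) 1 := by
  have := π.has_const 1
  rwa [map_one] at this

omit [CharZero k] in
theorem Place.G_ofNat (π : Place k) (n : ℕ) [n.AtLeastTwo] :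
    π.Has (OfNat.ofNat n : Om k) (OfNat.ofNat n) := by
  have := π.has_const (OfNat.ofNat n : k)
  rwa [map_ofNat] at this

theorem Place.has_lX (π : Place k) (r : k) {X : Om k} {x : k} (hX : π.Has X x) (hx : x ≠ 1) :
    π.Has (lX (algebraMap k (Om k) r) X) (lX r x) := by
  have h1 := π.G_one
  have h2 := π.G_ofNat 2
  have h4 := π.G_ofNat 4
  have hr := π.has_const r
  unfold lX
  refine π.has_div (π.has_mul hX (π.has_sub (π.has_mul (π.has_pow (π.has_add h1 hr) 2) hX)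
    (π.has_mul h4 hr))) (π.has_mul h4 (π.has_sub hX h1)) ?_
  exact mul_ne_zero (by norm_num) (sub_ne_zero.mpr hx)

theorem Place.has_lY (π : Place k) (r : k) {X Y : Om k} {x y : k} (hX : π.Has X x)
    (hY : π.Has Y y) (hx : x ≠ 1) :
    π.Has (lY (algebraMap k (Om k) r) X Y) (lY r x y) := by
  have h1 := π.G_one
  have h2 := π.G_ofNat 2
  have h8 := π.G_ofNat 8
  have hr := π.has_const r
  unfold lY
  refine π.has_div (π.has_mul hY (π.has_mul (π.has_mul (π.has_add h1 hr) (π.has_sub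
    (π.has_mul (π.has_add h1 hr) hX) h2)) (π.has_sub (π.has_mul (π.has_add h1 hr) hX)
    (π.has_mul h2 hr)))) (π.has_mul h8 (π.has_pow (π.has_sub hX h1) 2)) ?_
  exact mul_ne_zero (by norm_num) (pow_ne_zero _ (sub_ne_zero.mpr hx))

/-- specialisation of the chain -/
theorem Place.has_ch (π : Place k) (r : ℕ → k) (n : ℕ) {X Y : Om k} {x y : k} (hX : π.Has X x)
    (hY : π.Has Y y) (hx : Adm r n x) :
    π.Has (chX (fun j => algebraMap k (Om k) (r j)) n X) (chX r n x) ∧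
    π.Has (chY (fun j => algebraMap k (Om k) (r j)) n X Y) (chY r n x y) := by
  induction n generalizing X Y x y with
  | zero => exact ⟨hX, hY⟩
  | succ n ih => exact ih (π.has_lX (r n) hX hx.1) (π.has_lY (r n) hX hY hx.1) hx.2

theorem Place.lX_notMem (π : Place k) {r : k} (hr : 1 + r ≠ 0) {X : Om k} (hX : X ∉ π.ring) :
    lX (algebraMap k (Om k) r) X ∉ π.ring := by
  -- `u = X⁻¹` has residue zero
  have hX0 : X ≠ 0 := fun h => hX (by rw [h]; exact π.ring.zero_mem)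
  have hu : X⁻¹ ∈ π.ring := (π.ring.mem_or_inv_mem X).resolve_left hX
  have hu' : π.Has X⁻¹ (π.res ⟨X⁻¹, hu⟩) := ⟨hu, rfl⟩
  have hu0 : π.res ⟨X⁻¹, hu⟩ = 0 := by
    by_contra h
    have := π.inv_mem_of_has hu' h
    rw [inv_inv] at this
    exact hX this
  rw [hu0] at hu'
  have h1 := π.G_one
  have h4 := π.G_ofNat 4
  have hr' := π.has_const r
  have key : lX (algebraMap k (Om k) r) X =
      (((1 + algebraMap k (Om k) r) ^ 2 - 4 * algebraMap k (Om k) r * X⁻¹) / (4 * (1 - X⁻¹))) / X⁻¹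
      := by
    have hX1 : X - 1 ≠ 0 := by
      intro h
      apply hX
      have : X = 1 := by linear_combination h
      rw [this]
      exact π.ring.one_mem
    have hX2 : 1 - X⁻¹ ≠ 0 := by
      intro h
      apply hX1
      have h3 : X * (1 - X⁻¹) = 0 := by rw [h, mul_zero]
      rw [mul_sub, mul_inv_cancel₀ hX0, mul_one] at h3
      exact h3
    unfold lX
    field_simp
  rw [key]
  have h5 := π.has_div (π.has_sub (π.has_pow (π.has_add h1 hr') 2)
    (π.has_mul (π.has_mul h4 hr') hu')) (π.has_mul h4 (π.has_sub h1 hu')) (by norm_num)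
  refine π.div_notMem hu' (inv_ne_zero hX0) h5 ?_
  rw [mul_zero, sub_zero, sub_zero, mul_one]
  exact div_ne_zero (pow_ne_zero _ hr) (by norm_num)

theorem Place.chX_notMem (π : Place k) {c r : ℕ → k} (h : Tower c r) (n : ℕ) {X : Om k}
    (hX : X ∉ π.ring) : chX (fun j => algebraMap k (Om k) (r j)) n X ∉ π.ring := by
  induction n generalizing X with
  | zero => exact hX
  | succ n ih => exact ih (π.lX_notMem (h.facts n).2.2.2.1 hX)

end places

section base

variable {k : Type*} [Field k] [CharZero k] [IsAlgClosed k]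

/-- The rational curve `(X - p) = τ² (X - q)` in the function field, with a point where
`X = x₀`, `τ = y / y'`, and a pole of `X`. -/
theorem exists_base {x₀ p q y y' : k} (hx0 : x₀ ≠ 0) (hx1 : x₀ ≠ 1)
    (hy : y ^ 2 = x₀ * (x₀ - 1) * (x₀ - p)) (hy' : y' ^ 2 = x₀ * (x₀ - 1) * (x₀ - q))
    (hp : x₀ ≠ p) (hq : x₀ ≠ q) :
    ∃ (X τ : Om k) (π₀ π₁ : Place k), (∀ σ : Om k ≃ₐ[RatFunc k] Om k, σ X = X ∧ σ τ = τ) ∧
      π₀.Has X x₀ ∧ X ∉ π₁.ring ∧
      τ ^ 2 * (X - algebraMap k (Om k) q) = X - algebraMap k (Om k) p ∧ π₀.Has τ (y / y') := by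
  have hx : x₀ * (x₀ - 1) ≠ 0 := mul_ne_zero hx0 (sub_ne_zero.mpr hx1)
  have hy0 : y ≠ 0 := by
    rintro rfl
    exact mul_ne_zero hx (sub_ne_zero.mpr hp) (by rw [← hy]; ring)
  have hy'0 : y' ≠ 0 := by
    rintro rfl
    exact mul_ne_zero hx (sub_ne_zero.mpr hq) (by rw [← hy']; ring)
  obtain ⟨t, ht⟩ : ∃ t, t = y / y' := ⟨_, rfl⟩
  have ht2 : t ^ 2 * (x₀ - q) = x₀ - p := by
    have h1 : t * y' = y := by rw [ht]; field_simp
    have h2 : t ^ 2 * y' ^ 2 = y ^ 2 := by rw [← h1]; ring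
    rw [hy, hy'] at h2
    apply mul_left_cancel₀ hx
    linear_combination h2
  rw [← ht]
  set T : Om k := TT k with hT
  have hTc := gg_TT_ne (k := k)
  by_cases hpq : p = q
  · -- `t = ±1` is constant, `X = x₀ / T`
    subst hpq
    have ht1 : t ^ 2 = 1 := by
      apply mul_right_cancel₀ (sub_ne_zero.mpr hp)
      linear_combination ht2
    obtain ⟨π₀, hπ₀⟩ := exists_place (1 : k)
    obtain ⟨π₁, hπ₁⟩ := exists_place (0 : k)
    refine ⟨algebraMap k (Om k) x₀ / T, algebraMap k (Om k) t, π₀, π₁, ?_, ?_, ?_, ?_,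
      π₀.has_const t⟩
    · intro σ
      rw [map_div₀, gg_sigma_const, gg_sigma_const, hT, gg_sigma_TT]
      exact ⟨rfl, rfl⟩
    · have := π₀.has_div (π₀.has_const x₀) hπ₀ one_ne_zero
      rwa [div_one] at this
    · refine π₁.div_notMem hπ₁ ?_ (π₁.has_const x₀) hx0
      intro h
      apply hTc 0
      rw [map_zero]
      exact h
    · rw [← map_pow, ht1, map_one, one_mul]
  · -- `X = (q T² - p) / (T² - 1)`
    have htne : t ^ 2 - 1 ≠ 0 := by
      intro h
      apply hpq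
      have h3 : t ^ 2 = 1 := by linear_combination h
      rw [h3] at ht2
      linear_combination ht2
    obtain ⟨π₀, hπ₀⟩ := exists_place t
    obtain ⟨π₁, hπ₁⟩ := exists_place (1 : k)
    have hT1 : T ^ 2 - 1 ≠ 0 := by
      intro h
      have h8 : π₀.Has (T ^ 2 - 1) (t ^ 2 - 1) := π₀.has_sub (π₀.has_pow hπ₀ 2) π₀.G_one
      have h9 : π₀.Has (T ^ 2 - 1) 0 := by
        rw [h]
        have := π₀.has_const 0
        rwa [map_zero] at this
      exact htne (π₀.has_unique h8 h9)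
    set cp := algebraMap k (Om k) p
    set cq := algebraMap k (Om k) q
    refine ⟨(cq * T ^ 2 - cp) / (T ^ 2 - 1), T, π₀, π₁, ?_, ?_, ?_, ?_, hπ₀⟩
    · intro σ
      rw [map_div₀, map_sub, map_sub, map_mul, map_pow, map_one, gg_sigma_const, gg_sigma_const,
        hT, gg_sigma_TT]
      exact ⟨rfl, rfl⟩
    · have h5 := π₀.has_div (π₀.has_sub (π₀.has_mul (π₀.has_const q) (π₀.has_pow hπ₀ 2))
        (π₀.has_const p)) (π₀.has_sub (π₀.has_pow hπ₀ 2) π₀.G_one) htne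
      have h6 : (q * t ^ 2 - p) / (t ^ 2 - 1) = x₀ := by
        rw [div_eq_iff htne]
        linear_combination -ht2
      rw [h6] at h5
      exact h5
    · have hden : π₁.Has (T ^ 2 - 1) 0 := by
        have := π₁.has_sub (π₁.has_pow hπ₁ 2) π₁.G_one
        simpa using this
      have hnum := π₁.has_sub (π₁.has_mul (π₁.has_const q) (π₁.has_pow hπ₁ 2)) (π₁.has_const p)
      refine π₁.div_notMem hden hT1 hnum ?_
      intro h
      apply hpq
      linear_combination -h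
    · field_simp
      ring

end base

section rel

variable {k : Type*} [Field k] [CharZero k] [IsAlgClosed k] [DecidableEq k] {A₁ B₁ A₂ B₂ : k}
  [(Crv A₁ B₁).IsElliptic] [(Crv A₂ B₂).IsElliptic]

omit [IsAlgClosed k] [DecidableEq k] [CharZero k] in
theorem symb_of_rel [IsAlgClosed k] [DecidableEq k] {c : (Crv A₁ B₁).Point}
    {b : (Crv A₂ B₂).Point}
    (h : cl c b + cl (-c) (-b) = cl (0 : (Crv A₁ B₁).Point) (0 : (Crv A₂ B₂).Point) + cl 0 0) :
    symb c b = 0 := by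
  have hs : symb c b + symb (-c) (-b) = 0 := by
    unfold symb
    have e1 := zero_rel_fst (0 : (Crv A₂ B₂).Point) c
    have e2 := zero_rel_snd (0 : (Crv A₁ B₁).Point) b
    calc cl c b - cl c 0 - cl 0 b + cl 0 0 + (cl (-c) (-b) - cl (-c) 0 - cl 0 (-b) + cl 0 0)
        = (cl c b + cl (-c) (-b)) - (cl c 0 + cl (-c) 0) - (cl 0 b + cl 0 (-b))
          + (cl 0 0 + cl 0 0) := by abel
      _ = 0 := by rw [h, e1, e2]; abel
  have hn : symb (-c) (-b) = symb c b := by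
    have e1 : symb (-c) (-b) + symb c (-b) = 0 := by
      rw [← symb_add_left, neg_add_cancel, symb_zero_left]
    have e2 : symb c (-b) + symb c b = symb c 0 := by
      rw [← symb_add_right, neg_add_cancel]
    have e3 : symb c (0 : (Crv A₂ B₂).Point) = 0 := by unfold symb; abel
    rw [e3] at e2
    have e4 : symb (-c) (-b) = - symb c (-b) := eq_neg_of_add_eq_zero_left e1
    have e5 : symb c b = - symb c (-b) := eq_neg_of_add_eq_zero_right e2
    rw [e4, e5]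
  rw [hn, ← two_nsmul] at hs
  exact eq_zero_of_nsmul two_ne_zero hs

theorem dat_map {F K : Type*} [Field F] [Field K] (f : F →+* K) {A B e₁ e₂ e₃ κ : F}
    {c r : ℕ → F} (h : Dat A B e₁ e₂ e₃ κ c r) :
    Dat (f A) (f B) (f e₁) (f e₂) (f e₃) (f κ) (fun j => f (c j)) (fun j => f (r j)) := by
  refine ⟨gg_roots_map f h.roots, ?_, ?_, ⟨?_, ?_, ?_, ?_⟩⟩
  · rw [← map_pow, h.kap, map_pow, map_sub]
  · rw [← map_sub, ← map_sub, ← map_mul, h.c0]
  · intro n
    rw [← map_pow, h.tower.sq]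
  · intro n
    have := congrArg f (h.tower.succ n)
    simpa only [map_mul, map_pow, map_add, map_one, map_ofNat] using this
  · intro h0
    exact h.tower.ne0 (f.injective (by rw [h0, map_zero]))
  · intro h0
    exact h.tower.ne1 (f.injective (by rw [h0, map_one]))

/-- **Key lemma**: if `a`, `b` come from the same abscissa `x₀`, then `{a, b} = 0`. -/
theorem symb_gens {x₀ : k} (hx0 : x₀ ≠ 0) (hx1 : x₀ ≠ 1) {a : (Crv A₁ B₁).Point}
    {b : (Crv A₂ B₂).Point} (ha : a ∈ gens x₀ A₁ B₁) (hb : b ∈ gens x₀ A₂ B₂) :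
    symb a b = 0 := by
  obtain ⟨e₁, e₂, e₃, κ, c, r, n, y, hD, hy, hcn, hA, hns, rfl⟩ := ha
  obtain ⟨e₁', e₂', e₃', κ', c', r', n', y', hD', hy', hcn', hA', hns', rfl⟩ := hb
  apply symb_of_rel
  obtain ⟨X, τ, π₀, π₁, hσ, hX, hXn, hτ, hτt⟩ := exists_base hx0 hx1 hy hy' hcn hcn'
  set g : k →+* Om k := algebraMap k (Om k) with hg
  have hMD := dat_map g hD
  have hMD' := dat_map g hD'
  have hy'0 : y' ≠ 0 := by
    rintro rfl
    exact mul_ne_zero (mul_ne_zero hx0 (sub_ne_zero.mpr hx1)) (sub_ne_zero.mpr hcn')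
      (by rw [← hy']; ring)
  obtain ⟨Y', hY'⟩ := IsAlgClosed.exists_pow_nat_eq (X * (X - 1) * (X - g (c' n'))) (n := 2)
    (by norm_num)
  have hY : (τ * Y') ^ 2 = X * (X - 1) * (X - g (c n)) := by
    rw [mul_pow, hY']
    linear_combination (X * (X - 1)) * hτ
  -- sign
  have hY'2 : π₀.Has (Y' ^ 2) (y' ^ 2) := by
    rw [hY', hy']
    exact π₀.has_mul (π₀.has_mul hX (π₀.has_sub hX π₀.G_one)) (π₀.has_sub hX (π₀.has_const _))
  obtain ⟨d, hd, hd2⟩ := π₀.has_sqrt hY'2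
  -- we may suppose that the residue of `Y'` is `y'`
  obtain ⟨Z', hZ'sq, hZ'd⟩ : ∃ Z' : Om k, Z' ^ 2 = X * (X - 1) * (X - g (c' n')) ∧
      π₀.Has Z' y' := by
    rcases sq_eq_sq_iff_eq_or_eq_neg.1 hd2 with h7 | h7
    · exact ⟨Y', hY', by rw [← h7]; exact hd⟩
    · refine ⟨-Y', by rw [neg_sq]; exact hY', ?_⟩
      have := π₀.has_neg hd
      rwa [h7, neg_neg] at this
  have hZsq : (τ * Z') ^ 2 = X * (X - 1) * (X - g (c n)) := by
    rw [mul_pow, hZ'sq]
    linear_combination (X * (X - 1)) * hτ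
  have hZd : π₀.Has (τ * Z') y := by
    have := π₀.has_mul hτt hZ'd
    rwa [div_mul_cancel₀ _ hy'0] at this
  -- the points over `Ω`
  set ρ : ℕ → Om k := fun j => g (r j) with hρ
  set ρ' : ℕ → Om k := fun j => g (r' j) with hρ'
  have hP1 : (CrvOm A₁ B₁).Nonsingular (g e₁ + (g e₂ - g e₁) * chX ρ n X)
      (g κ * chY ρ n X (τ * Z')) := nonsing_of_eq (dat_curve hMD n hZsq)
  have hP2 : (CrvOm A₂ B₂).Nonsingular (g e₁' + (g e₂' - g e₁') * chX ρ' n' X)
      (g κ' * chY ρ' n' X Z') := nonsing_of_eq (dat_curve hMD' n' hZ'sq)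
  -- specialisations at `π₀`
  obtain ⟨s1, s2⟩ := π₀.has_ch r n hX hZd hA
  obtain ⟨s1', s2'⟩ := π₀.has_ch r' n' hX hZ'd hA'
  have hU : π₀.Has (g e₁ + (g e₂ - g e₁) * chX ρ n X) (e₁ + (e₂ - e₁) * chX r n x₀) :=
    π₀.has_add (π₀.has_const _) (π₀.has_mul (π₀.has_sub (π₀.has_const _) (π₀.has_const _)) s1)
  have hV : π₀.Has (g κ * chY ρ n X (τ * Z')) (κ * chY r n x₀ y) :=
    π₀.has_mul (π₀.has_const _) s2
  have hU' : π₀.Has (g e₁' + (g e₂' - g e₁') * chX ρ' n' X) (e₁' + (e₂' - e₁') * chX r' n' x₀) :=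
    π₀.has_add (π₀.has_const _) (π₀.has_mul (π₀.has_sub (π₀.has_const _) (π₀.has_const _)) s1')
  have hV' : π₀.Has (g κ' * chY ρ' n' X Z') (κ' * chY r' n' x₀ y') :=
    π₀.has_mul (π₀.has_const _) s2'
  -- at `π₁`
  obtain ⟨h12, -, -⟩ := hD.roots.ne
  obtain ⟨h12', -, -⟩ := hD'.roots.ne
  have hUn : g e₁ + (g e₂ - g e₁) * chX ρ n X ∉ π₁.ring := by
    have := π₁.affine_notMem (π₁.chX_notMem hD.tower n hXn) e₁ (sub_ne_zero.mpr h12.symm)
    rwa [map_sub, add_comm] at this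
  have hUn' : g e₁' + (g e₂' - g e₁') * chX ρ' n' X ∉ π₁.ring := by
    have := π₁.affine_notMem (π₁.chX_notMem hD'.tower n' hXn) e₁' (sub_ne_zero.mpr h12'.symm)
    rwa [map_sub, add_comm] at this
  -- Galois action
  have hσc : ∀ (σ : Om k ≃ₐ[RatFunc k] Om k) (z : k), (σ : Om k →+* Om k) (g z) = g z :=
    fun σ z => gg_sigma_const σ z
  have hσX : ∀ (σ : Om k ≃ₐ[RatFunc k] Om k) (s : ℕ → k) (m : ℕ),
      σ (chX (fun j => g (s j)) m X) = chX (fun j => g (s j)) m X := by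
    intro σ s m
    have := (map_ch (σ : Om k →+* Om k) (fun j => g (s j)) (fun j => g (s j)) m
      (fun j _ => hσc σ _) X 0).1
    have h5 : (σ : Om k →+* Om k) X = X := (hσ σ).1
    rw [h5] at this
    exact this
  have hσZ : ∀ σ : Om k ≃ₐ[RatFunc k] Om k, σ Z' = Z' ∨ σ Z' = -Z' := by
    intro σ
    have h5 : (σ Z') ^ 2 = Z' ^ 2 := by
      rw [← map_pow, hZ'sq, map_mul, map_mul, map_sub, map_sub, map_one, (hσ σ).1, hg,
        gg_sigma_const]
    exact sq_eq_sq_iff_eq_or_eq_neg.1 h5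
  have hσY : ∀ (σ : Om k ≃ₐ[RatFunc k] Om k) (s : ℕ → k) (m : ℕ) (W : Om k),
      σ (chY (fun j => g (s j)) m X W) = chY (fun j => g (s j)) m X (σ W) := by
    intro σ s m W
    have := (map_ch (σ : Om k →+* Om k) (fun j => g (s j)) (fun j => g (s j)) m
      (fun j _ => hσc σ _) X W).2
    have h5 : (σ : Om k →+* Om k) X = X := (hσ σ).1
    rw [h5] at this
    exact this
  have hσU : ∀ σ : Om k ≃ₐ[RatFunc k] Om k, σ (g e₁ + (g e₂ - g e₁) * chX ρ n X)
      = g e₁ + (g e₂ - g e₁) * chX ρ n X := by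
    intro σ
    rw [map_add, map_mul, map_sub, hg, gg_sigma_const, gg_sigma_const, ← hg, hρ, hσX]
  have hσU' : ∀ σ : Om k ≃ₐ[RatFunc k] Om k, σ (g e₁' + (g e₂' - g e₁') * chX ρ' n' X)
      = g e₁' + (g e₂' - g e₁') * chX ρ' n' X := by
    intro σ
    rw [map_add, map_mul, map_sub, hg, gg_sigma_const, gg_sigma_const, ← hg, hρ', hσX]
  have hσV : ∀ σ : Om k ≃ₐ[RatFunc k] Om k,
      (σ (g κ * chY ρ n X (τ * Z')) = g κ * chY ρ n X (τ * Z') ∧
        σ (g κ' * chY ρ' n' X Z') = g κ' * chY ρ' n' X Z') ∨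
      (σ (g κ * chY ρ n X (τ * Z')) = -(g κ * chY ρ n X (τ * Z')) ∧
        σ (g κ' * chY ρ' n' X Z') = -(g κ' * chY ρ' n' X Z')) := by
    intro σ
    have e1 : σ (g κ * chY ρ n X (τ * Z')) = g κ * chY ρ n X (τ * σ Z') := by
      rw [map_mul, hg, gg_sigma_const, ← hg, hρ, hσY, map_mul, (hσ σ).2]
    have e2 : σ (g κ' * chY ρ' n' X Z') = g κ' * chY ρ' n' X (σ Z') := by
      rw [map_mul, hg, gg_sigma_const, ← hg, hρ', hσY]
    rcases hσZ σ with h7 | h7
    · left; rw [e1, e2, h7]; exact ⟨rfl, rfl⟩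
    · right
      rw [e1, e2, h7, mul_neg, chY_neg, chY_neg, mul_neg, mul_neg]
      exact ⟨rfl, rfl⟩
  have hmain := pair_rel π₀ π₁
    ((.some _ _ hP1, .some _ _ hP2) : (CrvOm A₁ B₁).Point × (CrvOm A₂ B₂).Point)
    (.some _ _ (gg_neg_nonsing hP1), .some _ _ (gg_neg_nonsing hP2)) (by
      intro σ
      rcases hσV σ with ⟨h5, h6⟩ | ⟨h5, h6⟩
      · refine ⟨Or.inl (Prod.ext (gg_some_congr _ _ (hσU σ) h5) (gg_some_congr _ _ (hσU' σ) h6)),
          Or.inr (Prod.ext (gg_some_congr _ _ (hσU σ) ?_) (gg_some_congr _ _ (hσU' σ) ?_))⟩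
        · rw [map_neg, h5]
        · rw [map_neg, h6]
      · refine ⟨Or.inr (Prod.ext (gg_some_congr _ _ (hσU σ) h5) (gg_some_congr _ _ (hσU' σ) h6)),
          Or.inl (Prod.ext (gg_some_congr _ _ (hσU σ) ?_) (gg_some_congr _ _ (hσU' σ) ?_))⟩
        · rw [map_neg, h5, neg_neg]
        · rw [map_neg, h6, neg_neg])
  simp only at hmain
  rw [π₁.sp_of_notMem _ hUn, π₁.sp_of_notMem _ hUn', π₁.sp_of_notMem _ hUn,
    π₁.sp_of_notMem _ hUn'] at hmain
  rw [gg_neg_some, gg_neg_some, ← hmain, π₀.sp_of_has hP1 hU hV hns, π₀.sp_of_has hP2 hU' hV' hns',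
    π₀.sp_of_has _ hU (π₀.has_neg hV) (gg_neg_nonsing hns),
    π₀.sp_of_has _ hU' (π₀.has_neg hV') (gg_neg_nonsing hns')]

end rel

end AlbCH
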