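import Pool.Agent.Lib.MP_2eeeac_ag.Iso.NT

/-! Module FI: some multiple of a point of infinite order is near infinity. -/

namespace AlbCH

open WeierstrassCurve WeierstrassCurve.Affine

private theorem fi_norm_two : ‖(2 : PadicAlgCl 2)‖ = 1 / 2 := by
  have h1 : (2 : PadicAlgCl 2) = algebraMap ℚ_[2] (PadicAlgCl 2) 2 := by
    rw [map_ofNat]
  rw [h1, PadicAlgCl.norm_extends]
  have h2 := Padic.norm_p (p := 2)
  rw [Nat.cast_ofNat, Nat.cast_ofNat] at h2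
  rw [h2]; norm_num

private theorem fi_y_sq {F : Type*} [Field F] {A B e₁ e₂ e₃ x y : F} (hR : Roots A B e₁ e₂ e₃)
    (h : (Crv A B).Nonsingular x y) : y ^ 2 = (x - e₁) * (x - e₂) * (x - e₃) := by
  rw [(crv_nonsing.1 h).1, hR.hA, hR.hB]
  linear_combination x ^ 2 * hR.sum

/-- a lower bound for the ordinate of a point if the abscissas of the point and of its double are
bounded -/
private theorem fi_key {K : Type*} [NormedField K] [IsUltrametricDist K] [CharZero K]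
    (h2 : ‖(2 : K)‖ = 1 / 2) {u w s y : K} (hy : y ^ 2 = s * (s - u) * (s - w)) (hy0 : y ≠ 0)
    (hu : u ≠ 0) (hs : ‖s‖ ≤ ‖u‖) (hw : ‖w‖ ≤ ‖u‖)
    (hz : ‖(s ^ 2 - u * w) ^ 2 / (4 * y ^ 2)‖ ≤ ‖u‖) :
    min (‖w‖ * ‖u - w‖ ^ 2) (4 * (‖w‖ * ‖u - w‖ ^ 2) ^ 2 / ‖u‖ ^ 3) ≤ ‖y‖ ^ 2 := by
  have hD : 0 < ‖u‖ := norm_pos_iff.2 hu
  have hy1 : 0 < ‖y‖ := norm_pos_iff.2 hy0
  have hsum : ∀ a b : K, ∀ r : ℝ, ‖a‖ ≤ r → ‖b‖ ≤ r → ‖a + b‖ ≤ r := fun a b r ha hb =>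
    (IsUltrametricDist.norm_add_le_max a b).trans (max_le ha hb)
  have hsub : ∀ a b : K, ∀ r : ℝ, ‖a‖ ≤ r → ‖b‖ ≤ r → ‖a - b‖ ≤ r := fun a b r ha hb => by
    rw [sub_eq_add_neg]
    exact hsum _ _ _ ha (by rwa [norm_neg])
  have h2s : ‖2 * s‖ ≤ ‖u‖ := by
    rw [norm_mul, h2]; linarith [norm_nonneg s]
  have huw : ‖u + w‖ ≤ ‖u‖ := hsum _ _ _ le_rfl hw
  have huw' : ‖u - w‖ ≤ ‖u‖ := hsub _ _ _ le_rfl hw
  have hL : ‖2 * s + (u + w)‖ ≤ ‖u‖ := hsum _ _ _ h2s huw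
  have hQ : ‖2 * s * s - (u + w) * s - (u - w) * (u - w)‖ ≤ ‖u‖ * ‖u‖ := by
    refine hsub _ _ _ (hsub _ _ _ ?_ ?_) ?_
    · rw [norm_mul]; exact mul_le_mul h2s hs (norm_nonneg _) hD.le
    · rw [norm_mul]; exact mul_le_mul huw hs (norm_nonneg _) hD.le
    · rw [norm_mul]; exact mul_le_mul huw' huw' (norm_nonneg _) hD.le
  have hid : u * (w * (u - w) ^ 2) = (s ^ 2 - u * w) *
      (2 * s * s - (u + w) * s - (u - w) * (u - w)) - (2 * s + (u + w)) * y ^ 2 := by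
    rw [hy]; ring
  have hmax : ‖u‖ * (‖w‖ * ‖u - w‖ ^ 2) ≤
      max (‖s ^ 2 - u * w‖ * (‖u‖ * ‖u‖)) (‖u‖ * ‖y‖ ^ 2) := by
    have h3 := congrArg norm hid
    rw [norm_mul, norm_mul, norm_pow] at h3
    rw [h3, sub_eq_add_neg]
    refine (IsUltrametricDist.norm_add_le_max _ _).trans (max_le_max ?_ ?_)
    · rw [norm_mul]; exact mul_le_mul_of_nonneg_left hQ (norm_nonneg _)
    · rw [norm_neg, norm_mul, norm_pow]
      exact mul_le_mul_of_nonneg_right hL (by positivity)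
  have hκ : 0 ≤ ‖w‖ * ‖u - w‖ ^ 2 := by positivity
  set κ : ℝ := ‖w‖ * ‖u - w‖ ^ 2 with hκdef
  have h4 : ‖(4 : K)‖ = 1 / 4 := by
    have : (4 : K) = 2 * 2 := by norm_num
    rw [this, norm_mul, h2]; norm_num
  have hN : ‖s ^ 2 - u * w‖ ^ 2 ≤ ‖u‖ * (1 / 4 * ‖y‖ ^ 2) := by
    rw [norm_div, norm_pow, norm_mul, norm_pow, h4, div_le_iff₀ (by positivity)] at hz
    exact hz
  rcases le_max_iff.1 hmax with h5 | h5
  · refine (min_le_right _ _).trans ?_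
    rw [div_le_iff₀ (by positivity)]
    have h6 : κ ≤ ‖s ^ 2 - u * w‖ * ‖u‖ := by
      have h7 : ‖u‖ * κ ≤ ‖u‖ * (‖s ^ 2 - u * w‖ * ‖u‖) := by
        refine h5.trans (le_of_eq (by ring))
      exact le_of_mul_le_mul_left h7 hD
    have h8 : κ ^ 2 ≤ (‖s ^ 2 - u * w‖ * ‖u‖) ^ 2 := by
      exact pow_le_pow_left₀ hκ h6 2
    have h9 : ‖s ^ 2 - u * w‖ ^ 2 * ‖u‖ ^ 2 ≤ ‖u‖ * (1 / 4 * ‖y‖ ^ 2) * ‖u‖ ^ 2 :=
      mul_le_mul_of_nonneg_right hN (by positivity)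
    nlinarith [h8, h9]
  · exact (min_le_left _ _).trans (le_of_mul_le_mul_left h5 hD)

private theorem fi_compact (L : IntermediateField ℚ_[2] (PadicAlgCl 2))
    [hL : FiniteDimensional ℚ_[2] L]
    (x y : ℕ → PadicAlgCl 2) (hx : ∀ n, x n ∈ L) (hy : ∀ n, y n ∈ L) (R : ℝ)
    (hxR : ∀ n, ‖x n‖ ≤ R) (hyR : ∀ n, ‖y n‖ ≤ R) (ε : ℝ) (hε : 0 < ε) :
    ∃ m n, m < n ∧ ‖x m - x n‖ < ε ∧ ‖y m - y n‖ < ε := by
  let S : Submodule ℚ_[2] (PadicAlgCl 2) := Subalgebra.toSubmodule L.toSubalgebra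
  have : FiniteDimensional ℚ_[2] S := hL
  have : ProperSpace S := FiniteDimensional.proper ℚ_[2] S
  let f : ℕ → S × S := fun n => (⟨x n, hx n⟩, ⟨y n, hy n⟩)
  have hf : ∀ n, f n ∈ Metric.closedBall (0 : S × S) R := by
    intro n
    rw [mem_closedBall_zero_iff, Prod.norm_def]
    exact max_le (hxR n) (hyR n)
  obtain ⟨a, _, φ, hφ, hlim⟩ := (isCompact_closedBall (0 : S × S) R).tendsto_subseq hf
  have hC := hlim.cauchySeq
  rw [Metric.cauchySeq_iff'] at hC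
  obtain ⟨N, hN⟩ := hC ε hε
  have h1 := hN (N + 1) (by omega)
  rw [dist_comm, dist_eq_norm, Prod.norm_def] at h1
  refine ⟨φ N, φ (N + 1), hφ (by omega), ?_, ?_⟩
  · exact (le_max_left _ _).trans_lt h1
  · exact (le_max_right _ _).trans_lt h1

/-- the coordinates of the multiples of a point lie in a finite extension of `ℚ_2` -/
private theorem fi_field {A B x y : PadicAlgCl 2} [DecidableEq (PadicAlgCl 2)]
    (h : (Crv A B).Nonsingular x y) :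
    ∃ L : IntermediateField ℚ_[2] (PadicAlgCl 2), FiniteDimensional ℚ_[2] L ∧
      ∀ (M : ℕ) (x' y' : PadicAlgCl 2) (h' : (Crv A B).Nonsingular x' y'),
        M • (.some x y h : (Crv A B).Point) = .some x' y' h' → x' ∈ L ∧ y' ∈ L := by
  classical
  let L : IntermediateField ℚ_[2] (PadicAlgCl 2) :=
    IntermediateField.adjoin ℚ_[2] ({A, B, x, y} : Set (PadicAlgCl 2))
  have hmem : ∀ z ∈ ({A, B, x, y} : Set (PadicAlgCl 2)), z ∈ L := fun z hz =>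
    IntermediateField.subset_adjoin _ _ hz
  have hAL : A ∈ L := hmem A (by simp)
  have hBL : B ∈ L := hmem B (by simp)
  have hxL : x ∈ L := hmem x (by simp)
  have hyL : y ∈ L := hmem y (by simp)
  refine ⟨L, ?_, ?_⟩
  · exact IntermediateField.finiteDimensional_adjoin
      (fun z _ => (Algebra.IsAlgebraic.isAlgebraic z).isIntegral)
  · intro M x' y' h' hM
    let A' : L := ⟨A, hAL⟩
    let B' : L := ⟨B, hBL⟩
    let f : L →+* PadicAlgCl 2 := algebraMap L (PadicAlgCl 2)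
    have hA : f A' = A := rfl
    have hB : f B' = B := rfl
    have h0 : (Crv A' B').Nonsingular (⟨x, hxL⟩ : L) ⟨y, hyL⟩ := by
      have h1 := crv_nonsing.1 h
      rw [crv_nonsing]
      refine ⟨Subtype.ext ?_, ?_⟩
      · exact h1.1
      · rcases h1.2 with h2 | h2
        · left; intro h3; apply h2
          have h4 := congrArg f h3
          rw [map_zero, map_add, map_mul, map_pow, map_ofNat] at h4
          exact h4
        · right; intro h3; apply h2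
          exact congrArg Subtype.val h3
    have hmap : mapPt f hA hB (M • (.some _ _ h0 : (Crv A' B').Point)) = .some x' y' h' := by
      rw [map_nsmul, ← hM]
      rfl
    rcases hQ : M • (.some _ _ h0 : (Crv A' B').Point) with _ | ⟨x₁, y₁, h₁⟩
    · rw [hQ] at hmap
      have h3 : mapPt f hA hB (Point.zero : (Crv A' B').Point) = Point.zero := rfl
      rw [h3] at hmap
      cases hmap
    · rw [hQ, mapPt_some] at hmap
      rw [Point.some.injEq] at hmap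
      rw [← hmap.1, ← hmap.2]
      exact ⟨x₁.2, y₁.2⟩

open Classical in
/-- some positive multiple has large abscissa -/
private theorem fi_exists_one {A B e₁ e₂ e₃ : PadicAlgCl 2} (hR : Roots A B e₁ e₂ e₃)
    (h12 : e₁ ≠ e₂) (h13 : e₁ ≠ e₃) (h23 : e₂ ≠ e₃) (hc : ‖(e₃ - e₁) / (e₂ - e₁)‖ ≤ 1)
    (a : (Crv A B).Point) (ha : ∀ m : ℕ, m ≠ 0 → m • a ≠ 0) :
    ∃ (M : ℕ) (x y : PadicAlgCl 2) (h : (Crv A B).Nonsingular x y), M ≠ 0 ∧
      M • a = .some x y h ∧ 1 < ‖(x - e₁) / (e₂ - e₁)‖ := by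
  by_contra hcon
  push Not at hcon
  have hu : e₂ - e₁ ≠ 0 := sub_ne_zero.2 h12.symm
  have hD : 0 < ‖e₂ - e₁‖ := norm_pos_iff.2 hu
  have hw : ‖e₃ - e₁‖ ≤ ‖e₂ - e₁‖ := by
    rwa [norm_div, div_le_one hD] at hc
  have hbd : ∀ (M : ℕ) (x y : PadicAlgCl 2) (h : (Crv A B).Nonsingular x y), M ≠ 0 →
      M • a = .some x y h → ‖x - e₁‖ ≤ ‖e₂ - e₁‖ := by
    intro M x y h hM hMa
    have h1 := hcon M x y h hM hMa
    rwa [norm_div, div_le_one hD] at h1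
  -- the coordinates of the multiples
  have hex : ∀ n : ℕ, ∃ x y, ∃ h : (Crv A B).Nonsingular x y, (n + 1) • a = .some x y h := by
    intro n
    have h1 := ha (n + 1) (by omega)
    rcases hQ : (n + 1) • a with _ | ⟨x, y, h⟩
    · exact absurd hQ h1
    · exact ⟨x, y, h, rfl⟩
  choose x y hns hxy using hex
  have hxb : ∀ n, ‖x n - e₁‖ ≤ ‖e₂ - e₁‖ := fun n => hbd (n + 1) _ _ (hns n) (by omega) (hxy n)
  have hy2 : ∀ n, y n ^ 2 = (x n - e₁) * (x n - e₂) * (x n - e₃) := fun n => fi_y_sq hR (hns n)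
  have hy0 : ∀ n, y n ≠ 0 := by
    intro n h0
    apply ha (2 * (n + 1)) (by omega)
    rw [mul_nsmul', hxy n, two_nsmul]
    exact Point.add_self_of_Y_eq (by simp [negY, h0])
  -- lower bound for the ordinates
  obtain ⟨δ, hδ, hlow⟩ : ∃ δ : ℝ, 0 < δ ∧ ∀ n, δ ≤ ‖y n‖ ^ 2 := by
    refine ⟨min (‖e₃ - e₁‖ * ‖(e₂ - e₁) - (e₃ - e₁)‖ ^ 2)
      (4 * (‖e₃ - e₁‖ * ‖(e₂ - e₁) - (e₃ - e₁)‖ ^ 2) ^ 2 / ‖e₂ - e₁‖ ^ 3), ?_, ?_⟩
    · have h1 : 0 < ‖e₃ - e₁‖ := norm_pos_iff.2 (sub_ne_zero.2 h13.symm)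
      have h2 : 0 < ‖(e₂ - e₁) - (e₃ - e₁)‖ := by
        rw [sub_sub_sub_cancel_right]
        exact norm_pos_iff.2 (sub_ne_zero.2 h23)
      exact lt_min (by positivity) (by positivity)
    · intro n
      obtain ⟨x', y', h', hdbl, hx'⟩ := dbl_formula hR (hns n) (hy0 n)
      have h1 : (2 * (n + 1)) • a = .some x' y' h' := by
        rw [mul_nsmul', hxy n, hdbl]
      have h2 := hbd _ _ _ h' (by omega) h1
      rw [hx'] at h2
      refine fi_key fi_norm_two ?_ (hy0 n) hu (hxb n) hw h2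
      rw [hy2 n]; ring
  -- compactness
  obtain ⟨L, hL, hLmem⟩ : ∃ L : IntermediateField ℚ_[2] (PadicAlgCl 2),
      FiniteDimensional ℚ_[2] L ∧ ∀ n, x n ∈ L ∧ y n ∈ L := by
    obtain ⟨L, hL, hLm⟩ := fi_field (hns 0)
    refine ⟨L, hL, fun n => hLm (n + 1) _ _ (hns n) ?_⟩
    have h1 := hxy 0
    rw [zero_add, one_nsmul] at h1
    rw [← h1, hxy n]
  have := hL
  set C : ℝ := 3 * ‖e₂ - e₁‖ + 3 * ‖e₁‖ with hC
  have hC0 : 0 < C := by positivity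
  have hxC : ∀ n, ‖x n‖ ≤ ‖e₂ - e₁‖ + ‖e₁‖ := by
    intro n
    have h1 : x n = (x n - e₁) + e₁ := by ring
    rw [h1]
    exact (norm_add_le _ _).trans (add_le_add (hxb n) le_rfl)
  have hyR : ∃ R : ℝ, ∀ n, ‖y n‖ ≤ R := by
    refine ⟨‖e₂ - e₁‖ * (‖e₂ - e₁‖ + ‖e₁‖ + ‖e₂‖) * (‖e₂ - e₁‖ + ‖e₁‖ + ‖e₃‖) + 1, fun n => ?_⟩
    have h1 := congrArg norm (hy2 n)
    rw [norm_pow, norm_mul, norm_mul] at h1
    have h2 : ‖x n - e₂‖ ≤ ‖e₂ - e₁‖ + ‖e₁‖ + ‖e₂‖ :=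
      (norm_sub_le _ _).trans (add_le_add (hxC n) le_rfl)
    have h3 : ‖x n - e₃‖ ≤ ‖e₂ - e₁‖ + ‖e₁‖ + ‖e₃‖ :=
      (norm_sub_le _ _).trans (add_le_add (hxC n) le_rfl)
    have h4 : ‖y n‖ ^ 2 ≤ ‖e₂ - e₁‖ * (‖e₂ - e₁‖ + ‖e₁‖ + ‖e₂‖) *
        (‖e₂ - e₁‖ + ‖e₁‖ + ‖e₃‖) := by
      rw [h1]
      exact mul_le_mul (mul_le_mul (hxb n) h2 (norm_nonneg _) hD.le) h3 (norm_nonneg _)
        (by positivity)
    nlinarith [norm_nonneg (y n), sq_nonneg (‖y n‖ - 1)]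
  obtain ⟨R, hyR⟩ := hyR
  obtain ⟨ε, hε, hεδ⟩ : ∃ ε : ℝ, 0 < ε ∧ 4 * (C + 1) * ε ^ 2 < δ := by
    refine ⟨min 1 (δ / (8 * (C + 1))), lt_min one_pos (by positivity), ?_⟩
    set e := min 1 (δ / (8 * (C + 1))) with he
    have h1 : e ≤ 1 := min_le_left _ _
    have h2 : e ≤ δ / (8 * (C + 1)) := min_le_right _ _
    have h3 : 0 < e := lt_min one_pos (by positivity)
    rw [le_div_iff₀ (by positivity)] at h2
    nlinarith
  obtain ⟨m, n, hmn, hdx, hdy⟩ := fi_compact L x y (fun n => (hLmem n).1) (fun n => (hLmem n).2)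
    (max (‖e₂ - e₁‖ + ‖e₁‖) R) (fun n => (hxC n).trans (le_max_left _ _))
    (fun n => (hyR n).trans (le_max_right _ _)) ε hε
  -- the abscissas are different
  have hxne : x n ≠ x m := by
    intro h0
    have h1 : y n ^ 2 = y m ^ 2 := by rw [hy2, hy2, h0]
    rcases sq_eq_sq_iff_eq_or_eq_neg.1 h1 with h2 | h2
    · have h3 : (n + 1) • a = (m + 1) • a := by
        rw [hxy n, hxy m]
        simp only [Point.some.injEq]
        exact ⟨h0, h2⟩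
      apply ha (n - m) (by omega)
      have h4 : (n + 1) • a = (n - m) • a + (m + 1) • a := by
        rw [← add_nsmul]; congr 1; omega
      rw [h4] at h3
      exact add_eq_right.1 h3
    · have h3 : (n + 1) • a = -((m + 1) • a) := by
        rw [hxy n, hxy m, Point.neg_some]
        simp only [Point.some.injEq]
        refine ⟨h0, ?_⟩
        rw [h2]; simp [negY]
      apply ha ((n + 1) + (m + 1)) (by omega)
      rw [add_nsmul, h3, neg_add_cancel]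
  have hxd : x n - x m ≠ 0 := sub_ne_zero.2 hxne
  -- the difference of the two points
  have hdiff : (x (n - m - 1)) = ((y n + y m) / (x n - x m)) ^ 2 - x n - x m := by
    have h1 : (n - m - 1 + 1) • a = (n + 1) • a + -((m + 1) • a) := by
      rw [← sub_eq_add_neg, eq_sub_iff_add_eq, ← add_nsmul]
      congr 1; omega
    rw [hxy, hxy n, hxy m, Point.neg_some] at h1
    have hne : ¬(x n = x m ∧ y n = (Crv A B).negY (x m) ((Crv A B).negY (x m) (y m))) :=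
      fun hh => hxne hh.1
    rw [Point.add_some hne] at h1
    rw [Point.some.injEq] at h1
    rw [h1.1, slope_of_X_ne hxne]
    simp [addX, negY]
  have hsq : ‖y n + y m‖ ^ 2 ≤ C * ‖x n - x m‖ ^ 2 := by
    have h1 : (y n + y m) ^ 2 = (x (n - m - 1) + x n + x m) * (x n - x m) ^ 2 := by
      rw [hdiff]; field_simp; ring
    have h2 := congrArg norm h1
    rw [norm_pow, norm_mul, norm_pow] at h2
    rw [h2]
    refine mul_le_mul_of_nonneg_right ?_ (by positivity)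
    refine (norm_add_le _ _).trans ?_
    have h3 := norm_add_le (x (n - m - 1)) (x n)
    have h4 := hxC (n - m - 1)
    have h5 := hxC n
    have h6 := hxC m
    rw [hC]; linarith
  have hfin : ‖y n‖ ^ 2 ≤ 4 * (C + 1) * ε ^ 2 := by
    have h1 : 2 * y n = (y n + y m) + (y n - y m) := by ring
    have h2 := congrArg norm h1
    rw [norm_mul, fi_norm_two] at h2
    have h3 := IsUltrametricDist.norm_add_le_max (y n + y m) (y n - y m)
    rw [← h2] at h3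
    have hε2 : ‖x n - x m‖ ^ 2 ≤ ε ^ 2 := by
      refine pow_le_pow_left₀ (norm_nonneg _) ?_ 2
      rw [norm_sub_rev]; exact hdx.le
    rcases le_max_iff.1 h3 with h4 | h4
    · have h5 : (1 / 2 * ‖y n‖) ^ 2 ≤ C * ε ^ 2 := by
        refine (pow_le_pow_left₀ (by positivity) h4 2).trans (hsq.trans ?_)
        exact mul_le_mul_of_nonneg_left hε2 hC0.le
      nlinarith [sq_nonneg ε]
    · have h5 : (1 / 2 * ‖y n‖) ^ 2 ≤ ε ^ 2 := by
        refine pow_le_pow_left₀ (by positivity) (h4.trans ?_) 2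
        rw [norm_sub_rev]; exact hdy.le
      nlinarith [mul_nonneg hC0.le (sq_nonneg ε)]
  exact absurd (hlow n) (not_le.2 (hfin.trans_lt hεδ))

open Classical in
theorem exists_multiple_large {A B e₁ e₂ e₃ : PadicAlgCl 2} (hR : Roots A B e₁ e₂ e₃)
    (h12 : e₁ ≠ e₂) (h13 : e₁ ≠ e₃) (h23 : e₂ ≠ e₃) (hc : ‖(e₃ - e₁) / (e₂ - e₁)‖ ≤ 1)
    (a : (Crv A B).Point) (ha : ∀ m : ℕ, m ≠ 0 → m • a ≠ 0) :
    ∃ (M : ℕ) (x y : PadicAlgCl 2) (h : (Crv A B).Nonsingular x y), M ≠ 0 ∧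
      M • a = .some x y h ∧ 64 < ‖(x - e₁) / (e₂ - e₁)‖ := by
  obtain ⟨M, x, y, h, hM, hMa, hx⟩ := fi_exists_one hR h12 h13 h23 hc a ha
  obtain ⟨x₁, y₁, h₁, hd₁, hx₁⟩ := dbl_growth fi_norm_two hR h12 hc h hx
  obtain ⟨x₂, y₂, h₂, hd₂, hx₂⟩ := dbl_growth fi_norm_two hR h12 hc h₁ (by linarith)
  obtain ⟨x₃, y₃, h₃, hd₃, hx₃⟩ := dbl_growth fi_norm_two hR h12 hc h₂ (by linarith)
  refine ⟨2 * (2 * (2 * M)), x₃, y₃, h₃, by omega, ?_, by linarith⟩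
  rw [mul_nsmul', mul_nsmul', mul_nsmul', hMa, hd₁, hd₂, hd₃]

end AlbCH
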