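import Pool.Agent.Lib.MP_2eeeac_ag.Symb
import Pool.Agent.Lib.MP_2eeeac_ag.Iso.MFA

/-! Module MFB: zero-cycles on products of more than two elliptic curves. -/

namespace AlbCH

open WeierstrassCurve WeierstrassCurve.Affine

section MFB

variable {k : Type*} [Field k] [IsAlgClosed k] [DecidableEq k] {I : Type} [Fintype I]
  [DecidableEq I] {A B : I → k} [∀ i, (Crv (A i) (B i)).IsElliptic]

omit [IsAlgClosed k] [Fintype I] in
private lemma MFB_two {i j : I} (hij : i ≠ j) (c : MPt A B) (a : (Crv (A i) (B i)).Point)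
    (b : (Crv (A j) (B j)).Point) (h : symb a b = 0) :
    Mcl (Function.update (Function.update c i a) j b)
      - Mcl (Function.update (Function.update c i 0) j b)
      = Mcl (Function.update (Function.update c i a) j 0)
        - Mcl (Function.update (Function.update c i 0) j 0) := by
  obtain ⟨f, hf⟩ := exists_push (A := A) (B := B) i j hij c
  have h1 := congrArg f h
  unfold symb at h1
  rw [map_zero, map_add, map_sub, map_sub, hf, hf, hf, hf] at h1
  have h2 : Mcl (Function.update (Function.update c i a) j b)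
      - Mcl (Function.update (Function.update c i 0) j b)
      - (Mcl (Function.update (Function.update c i a) j 0)
        - Mcl (Function.update (Function.update c i 0) j 0)) = 0 := by
    rw [← h1]; abel
  exact sub_eq_zero.mp h2

omit [IsAlgClosed k] [Fintype I] in
/-- the difference of two points which differ only in the coordinate `i` does not depend on the
other coordinates -/
private lemma MFB_diff (Γ : ∀ i, AddSubgroup (Crv (A i) (B i)).Point)
    (hΓ : ∀ i j, i ≠ j → ∀ a ∈ Γ i, ∀ b ∈ Γ j, symb a b = 0)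
    (i : I) (Q : MPt A B) (hQ : ∀ l, Q l ∈ Γ l) (T : Finset I) (hT : i ∉ T)
    (a : (Crv (A i) (B i)).Point) (ha : a ∈ Γ i) :
    Mcl (Function.update (T.piecewise Q 0) i a) - Mcl (Function.update (T.piecewise Q 0) i 0)
      = Mcl (Function.update (0 : MPt A B) i a) - Mcl (Function.update (0 : MPt A B) i 0) := by
  induction T using Finset.induction_on with
  | empty => simp only [Finset.piecewise_empty]
  | insert j T hj ih =>
    have hij : i ≠ j := fun h => hT (h ▸ Finset.mem_insert_self i T)
    have hiT : i ∉ T := fun h => hT (Finset.mem_insert_of_mem h)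
    rw [← ih hiT, Finset.piecewise_insert]
    have h0 : T.piecewise Q 0 = Function.update (T.piecewise Q 0) j 0 := by
      rw [Function.eq_update_iff]
      exact ⟨by rw [Finset.piecewise_eq_of_notMem _ _ _ hj]; rfl, fun _ _ => rfl⟩
    have h1 := MFB_two hij (T.piecewise Q 0) a (Q j) (hΓ i j hij a ha (Q j) (hQ j))
    have hc : ∀ (x : (Crv (A j) (B j)).Point) (y : (Crv (A i) (B i)).Point),
        Function.update (Function.update (T.piecewise Q 0) j x) i y
          = Function.update (Function.update (T.piecewise Q 0) i y) j x := fun x y =>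
      Function.update_comm hij.symm x y (T.piecewise Q 0)
    rw [hc, hc, h1, ← hc, ← hc, ← h0]

omit [IsAlgClosed k] [Fintype I] in
private lemma MFB_split (Γ : ∀ i, AddSubgroup (Crv (A i) (B i)).Point)
    (hΓ : ∀ i j, i ≠ j → ∀ a ∈ Γ i, ∀ b ∈ Γ j, symb a b = 0)
    (Q : MPt A B) (hQ : ∀ l, Q l ∈ Γ l) (S : Finset I) :
    Mcl (S.piecewise Q 0) = Mcl (0 : MPt A B)
      + ∑ i ∈ S, (Mcl (Function.update (0 : MPt A B) i (Q i)) - Mcl (0 : MPt A B)) := by
  induction S using Finset.induction_on with
  | empty => simp only [Finset.piecewise_empty, Finset.sum_empty, add_zero]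
  | insert i S hi ih =>
    rw [Finset.sum_insert hi, Finset.piecewise_insert]
    have h0 : Function.update (S.piecewise Q 0) i 0 = S.piecewise Q 0 := by
      symm
      rw [Function.eq_update_iff]
      exact ⟨by rw [Finset.piecewise_eq_of_notMem _ _ _ hi]; rfl, fun _ _ => rfl⟩
    have h1 := MFB_diff Γ hΓ i Q hQ S hi (Q i) (hQ i)
    have h2 : Function.update (0 : MPt A B) i 0 = 0 := Function.update_eq_self i (0 : MPt A B)
    rw [h0, h2, ih] at h1
    rw [← h1]
    abel

omit [Fintype I] in
/-- the homomorphism `a ↦ [(0, .., a, .., 0)] - [0]` -/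
private lemma MFB_add [Nontrivial I] (i : I) (a a' : (Crv (A i) (B i)).Point) :
    Mcl (Function.update (0 : MPt A B) i (a + a')) - Mcl (0 : MPt A B)
      = (Mcl (Function.update (0 : MPt A B) i a) - Mcl (0 : MPt A B))
        + (Mcl (Function.update (0 : MPt A B) i a') - Mcl (0 : MPt A B)) := by
  obtain ⟨j, hj⟩ := exists_ne i
  obtain ⟨f, hf⟩ := exists_push (A := A) (B := B) i j hj.symm 0
  have h1 := congrArg f (cl_add_fst (0 : (Crv (A j) (B j)).Point) a a')
  rw [map_add, map_add, hf, hf, hf, hf] at h1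
  have h0 : ∀ x : (Crv (A i) (B i)).Point,
      Function.update (Function.update (0 : MPt A B) i x) j 0
        = Function.update (0 : MPt A B) i x := by
    intro x
    symm
    rw [Function.eq_update_iff]
    exact ⟨by rw [Function.update_of_ne hj]; rfl, fun _ _ => rfl⟩
  have h2 : Function.update (0 : MPt A B) i 0 = 0 := Function.update_eq_self i (0 : MPt A B)
  rw [h0, h0, h0, h0, h2] at h1
  have h3 : Mcl (Function.update (0 : MPt A B) i (a + a')) - Mcl (0 : MPt A B)
      - ((Mcl (Function.update (0 : MPt A B) i a) - Mcl (0 : MPt A B))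
        + (Mcl (Function.update (0 : MPt A B) i a') - Mcl (0 : MPt A B))) = 0 := by
    have h4 := sub_eq_zero.mpr h1
    rw [← h4]; abel
  exact sub_eq_zero.mp h3

theorem mfold_zero [Nontrivial I] (Γ : ∀ i, AddSubgroup (Crv (A i) (B i)).Point)
    (hΓ : ∀ i j, i ≠ j → ∀ a ∈ Γ i, ∀ b ∈ Γ j, symb a b = 0)
    (z : MPt A B →₀ ℤ) (hz : ∀ Q ∈ z.support, ∀ i, Q i ∈ Γ i)
    (hdeg : z.sum (fun _ n => n) = 0) (halb : ∀ i, z.sum (fun Q n => n • Q i) = 0) :
    z.sum (fun Q n => (n : ℚ) • Mcl Q) = 0 := by
  let φ : ∀ i, (Crv (A i) (B i)).Point →+ MCH0Q A B := fun i =>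
    AddMonoidHom.mk' (fun a => Mcl (Function.update (0 : MPt A B) i a) - Mcl (0 : MPt A B))
      (fun a a' => MFB_add i a a')
  have hQ : ∀ Q ∈ z.support, Mcl Q = Mcl (0 : MPt A B) + ∑ i, φ i (Q i) := by
    intro Q hQ
    have h := MFB_split Γ hΓ Q (hz Q hQ) Finset.univ
    rw [Finset.piecewise_univ] at h
    exact h
  have h1 : z.sum (fun Q n => (n : ℚ) • Mcl Q)
      = ∑ Q ∈ z.support, ((z Q : ℤ) • Mcl (0 : MPt A B) + ∑ i, φ i (z Q • Q i)) := by
    rw [Finsupp.sum]
    refine Finset.sum_congr rfl fun Q hQ' => ?_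
    rw [Int.cast_smul_eq_zsmul, hQ Q hQ', smul_add, Finset.smul_sum]
    congr 1
    refine Finset.sum_congr rfl fun i _ => ?_
    rw [map_zsmul]
  rw [h1, Finset.sum_add_distrib, ← Finset.sum_smul, Finset.sum_comm]
  have h2 : ∑ Q ∈ z.support, z Q = 0 := hdeg
  rw [h2, zero_smul, zero_add]
  refine Finset.sum_eq_zero fun i _ => ?_
  rw [← map_sum]
  have h3 : ∑ Q ∈ z.support, z Q • Q i = 0 := halb i
  rw [h3, map_zero]

end MFB

end AlbCH
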