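import Pool.Agent.Lib.MP_2eeeac_ag.Iso.Ind
import Pool.Agent.Lib.MP_2eeeac_ag.Iso.FI
import Pool.Agent.Lib.MP_2eeeac_ag.Iso.MFB
import Pool.Agent.Lib.MP_2eeeac_ag.Main

/-! Assembly: universal isotropic subgroups. -/

namespace AlbCH

open WeierstrassCurve WeierstrassCurve.Affine

section gamma

variable {k : Type*} [Field k] [DecidableEq k]

/-- The division hull of the subgroup generated by the points coming from the abscissa `x₀`. -/
def isoGamma (x₀ A B : k) : AddSubgroup (Crv A B).Point where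
  carrier := {P | ∃ n : ℕ, n ≠ 0 ∧ n • P ∈ AddSubgroup.closure (gens x₀ A B)}
  add_mem' := by
    rintro P Q ⟨n, hn, hP⟩ ⟨m, hm, hQ⟩
    refine ⟨n * m, mul_ne_zero hn hm, ?_⟩
    rw [nsmul_add]
    apply AddSubgroup.add_mem
    · rw [mul_comm, mul_nsmul']
      exact AddSubgroup.nsmul_mem _ hP _
    · rw [mul_nsmul']
      exact AddSubgroup.nsmul_mem _ hQ _
  zero_mem' := ⟨1, one_ne_zero, by rw [nsmul_zero]; exact AddSubgroup.zero_mem _⟩
  neg_mem' := by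
    rintro P ⟨n, hn, hP⟩
    exact ⟨n, hn, by rw [smul_neg]; exact AddSubgroup.neg_mem _ hP⟩

theorem mem_isoGamma {x₀ A B : k} {P : (Crv A B).Point} :
    P ∈ isoGamma x₀ A B ↔ ∃ n : ℕ, n ≠ 0 ∧ n • P ∈ AddSubgroup.closure (gens x₀ A B) := Iff.rfl

theorem isoGamma_div {x₀ A B : k} {P : (Crv A B).Point} {n : ℕ} (hn : n ≠ 0)
    (h : n • P ∈ isoGamma x₀ A B) : P ∈ isoGamma x₀ A B := by
  obtain ⟨m, hm, h⟩ := h
  exact ⟨m * n, mul_ne_zero hm hn, by rw [mul_comm, mul_nsmul]; exact h⟩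

theorem gens_subset_isoGamma {x₀ A B : k} {P : (Crv A B).Point} (h : P ∈ gens x₀ A B) :
    P ∈ isoGamma x₀ A B :=
  ⟨1, one_ne_zero, by rw [one_nsmul]; exact AddSubgroup.subset_closure h⟩

end gamma

section isotropy

variable {k : Type*} [Field k] [CharZero k] [IsAlgClosed k] [DecidableEq k] {A₁ B₁ A₂ B₂ : k}
  [(Crv A₁ B₁).IsElliptic] [(Crv A₂ B₂).IsElliptic]

omit [CharZero k] [IsAlgClosed k] [DecidableEq k] in
theorem symb_zero_right (a : (Crv A₁ B₁).Point) : symb a (0 : (Crv A₂ B₂).Point) = 0 := by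
  unfold symb; abel

/-- The symbol as a homomorphism in the second variable. -/
noncomputable def symbR (a : (Crv A₁ B₁).Point) : (Crv A₂ B₂).Point →+ CH0Q A₁ B₁ A₂ B₂ where
  toFun b := symb a b
  map_zero' := symb_zero_right a
  map_add' b b' := symb_add_right a b b'

theorem symb_isoGamma {x₀ : k} (hx0 : x₀ ≠ 0) (hx1 : x₀ ≠ 1) {a : (Crv A₁ B₁).Point}
    {b : (Crv A₂ B₂).Point} (ha : a ∈ isoGamma x₀ A₁ B₁) (hb : b ∈ isoGamma x₀ A₂ B₂) :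
    symb a b = 0 := by
  obtain ⟨n, hn, ha⟩ := ha
  obtain ⟨m, hm, hb⟩ := hb
  have h1 : ∀ b' ∈ gens x₀ A₂ B₂, symb (n • a) b' = 0 := by
    intro b' hb'
    have h2 : AddSubgroup.closure (gens x₀ A₁ B₁) ≤ (symbL (A₁ := A₁) (B₁ := B₁) b').ker := by
      rw [AddSubgroup.closure_le]
      intro a' ha'
      exact symb_gens hx0 hx1 ha' hb'
    exact h2 ha
  have h3 : AddSubgroup.closure (gens x₀ A₂ B₂) ≤ (symbR (A₂ := A₂) (B₂ := B₂) (n • a)).ker := by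
    rw [AddSubgroup.closure_le]
    intro b' hb'
    exact h1 b' hb'
  have h4 : symb (n • a) (m • b) = 0 := h3 hb
  have h5 : symb (n • a) (m • b) = m • symb (n • a) b := map_nsmul (symbR (n • a)) m b
  rw [h5] at h4
  have h6 := eq_zero_of_nsmul hm h4
  rw [symb_nsmul_left] at h6
  exact eq_zero_of_nsmul hn h6

end isotropy

section start

theorem norm_256 (ι : AlgebraicClosure ℚ →+* PadicAlgCl 2) : ‖ι 256‖ = 1 / 256 := by
  have h1 : ι 256 = (2 : PadicAlgCl 2) ^ 8 := by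
    rw [map_ofNat]; norm_num
  rw [h1, norm_pow, norm_two_alg]
  norm_num

open Classical in
/-- every point is contained in one of the groups -/
theorem exists_x0 (ι : AlgebraicClosure ℚ →+* PadicAlgCl 2) {A B : AlgebraicClosure ℚ}
    [(Crv A B).IsElliptic] (a : (Crv A B).Point) :
    ∃ x₀ : AlgebraicClosure ℚ, x₀ ≠ 0 ∧ ‖ι x₀‖ ≤ 1 / 256 ∧ a ∈ isoGamma x₀ A B := by
  by_cases ha : ∃ n : ℕ, n ≠ 0 ∧ n • a = 0
  · obtain ⟨n, hn, hna⟩ := ha
    refine ⟨256, by norm_num, (norm_256 ι).le, n, hn, ?_⟩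
    rw [hna]
    exact AddSubgroup.zero_mem _
  push Not at ha
  obtain ⟨e₁, e₂, e₃, hR, hc0, -⟩ := exists_order ι A B
  obtain ⟨h12, h13, h23⟩ := hR.ne
  have hι12 : ι e₁ ≠ ι e₂ := fun h => h12 (ι.injective h)
  have hι13 : ι e₁ ≠ ι e₃ := fun h => h13 (ι.injective h)
  have hι23 : ι e₂ ≠ ι e₃ := fun h => h23 (ι.injective h)
  have hRι := gg_roots_map ι hR
  have hc0' : ‖(ι e₃ - ι e₁) / (ι e₂ - ι e₁)‖ ≤ 1 := by
    rw [← map_sub, ← map_sub, ← map_div₀]; exact hc0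
  have hna : ∀ m : ℕ, m ≠ 0 → m • (mapPt ι rfl rfl a : (Crv (ι A) (ι B)).Point) ≠ 0 := by
    intro m hm h
    apply ha m hm
    apply mapPt_injective ι rfl rfl
    rw [map_nsmul, h, map_zero]
  obtain ⟨M, x, y, hxy, hM, hMa, hlarge⟩ :=
    exists_multiple_large hRι hι12 hι13 hι23 hc0' (mapPt ι rfl rfl a) hna
  obtain ⟨x', y', hxy', h2, hgr⟩ := dbl_growth norm_two_alg hRι hι12 hc0' hxy (by linarith)
  -- the multiple `N a`, `N = 2 M`
  have hN : mapPt ι rfl rfl ((M * 2) • a) = (.some x' y' hxy' : (Crv (ι A) (ι B)).Point) := by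
    rw [← h2, ← hMa, map_nsmul, mul_nsmul]
  have hX' : 256 < ‖(x' - ι e₁) / (ι e₂ - ι e₁)‖ := by rw [hgr]; linarith
  obtain ⟨N, hNdef⟩ : ∃ N, N = M * 2 := ⟨_, rfl⟩
  rw [← hNdef] at hN
  have hN0 : N ≠ 0 := by omega
  rcases hNa : N • a with _ | ⟨x₁, y₁, hxy₁⟩
  · rw [hNa] at hN
    exact absurd hN (by rintro ⟨⟩)
  rw [hNa, mapPt_some, Point.some.injEq] at hN
  obtain ⟨hx₁, -⟩ := hN
  have hd0 : e₂ - e₁ ≠ 0 := sub_ne_zero.mpr h12.symm
  have hX₁ : 256 < ‖ι ((x₁ - e₁) / (e₂ - e₁))‖ := by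
    rw [map_div₀, map_sub, map_sub, hx₁]; exact hX'
  have hne : x₁ ≠ e₁ := by
    intro h
    rw [h, sub_self, zero_div, map_zero, norm_zero] at hX₁
    norm_num at hX₁
  have hx10 : x₁ - e₁ ≠ 0 := sub_ne_zero.mpr hne
  have hroot : (0 : AlgebraicClosure ℚ) ^ 2 = e₁ ^ 3 + A * e₁ + B := by
    have := hR.factor e₁
    rw [sub_self, zero_mul, zero_mul] at this
    rw [this]; ring
  have hT : (Crv A B).Nonsingular e₁ 0 := nonsing_of_eq hroot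
  obtain ⟨x₂, y₂, hxy₂, hsum, hx₂⟩ := add_two_torsion hxy₁ hT hne
  have hA : 3 * e₁ ^ 2 + A = (e₂ - e₁) * (e₃ - e₁) := by
    rw [hR.hA]
    linear_combination (2 * e₁) * hR.sum
  rw [hA] at hx₂
  obtain ⟨x₀, hx₀⟩ : ∃ x₀, x₀ = (e₃ - e₁) / (x₁ - e₁) := ⟨_, rfl⟩
  have hx₂' : x₂ = e₁ + (e₂ - e₁) * x₀ := by
    rw [hx₂, hx₀]; ring
  have hx0 : x₀ ≠ 0 := by
    rw [hx₀]; exact div_ne_zero (sub_ne_zero.mpr h13.symm) hx10
  have hx₀c : x₀ = ((e₃ - e₁) / (e₂ - e₁)) / ((x₁ - e₁) / (e₂ - e₁)) := by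
    rw [hx₀]; field_simp
  have hnorm : ‖ι x₀‖ ≤ 1 / 256 := by
    rw [hx₀c, map_div₀, norm_div]
    rw [div_le_div_iff₀ (by linarith) (by norm_num)]
    nlinarith
  -- tower and data
  have hsq : ∀ z : AlgebraicClosure ℚ, ∃ w : AlgebraicClosure ℚ, w ^ 2 = z := fun z =>
    IsAlgClosed.exists_pow_nat_eq z (n := 2) (by norm_num)
  obtain ⟨κ, hκ⟩ := hsq ((e₂ - e₁) ^ 3)
  obtain ⟨r₀, hr₀⟩ := hsq ((e₃ - e₁) / (e₂ - e₁))
  have hn0 : r₀ ^ 2 ≠ 0 := by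
    rw [hr₀]; exact div_ne_zero (sub_ne_zero.mpr h13.symm) hd0
  have hn1 : r₀ ^ 2 ≠ 1 := by
    rw [hr₀]
    intro h
    rw [div_eq_one_iff_eq hd0] at h
    exact h23 (by linear_combination -h)
  obtain ⟨c, r, hTw, hTc, -⟩ := exists_tower r₀ hn0 hn1
  have hcv : c 0 = (e₃ - e₁) / (e₂ - e₁) := by rw [hTc, hr₀]
  have hκ0 : κ ≠ 0 := by
    rintro rfl
    exact pow_ne_zero 3 hd0 (by rw [← hκ]; ring)
  have hD : Dat A B e₁ e₂ e₃ κ c r := ⟨hR, hκ, by rw [hcv]; field_simp, hTw⟩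
  have hY : (y₂ / κ) ^ 2 = x₀ * (x₀ - 1) * (x₀ - c 0) := by
    have h5 := (crv_nonsing.mp hxy₂).1
    rw [hR.factor, hx₂'] at h5
    rw [div_pow, h5, hκ, hcv]
    field_simp
    ring
  have hxc : x₀ ≠ c 0 := by
    intro h
    rw [hcv, hx₀] at h
    have h6 : x₁ - e₁ = e₂ - e₁ := by
      have h7 : e₃ - e₁ ≠ 0 := sub_ne_zero.mpr h13.symm
      rw [div_eq_div_iff hx10 hd0] at h
      exact (mul_left_cancel₀ h7 h).symm
    rw [h6, div_self hd0, map_one, norm_one] at hX₁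
    norm_num at hX₁
  refine ⟨x₀, hx0, hnorm, N * 2, by omega, ?_⟩
  have hgen : (.some x₂ y₂ hxy₂ : (Crv A B).Point) ∈ gens x₀ A B := by
    refine ⟨e₁, e₂, e₃, κ, c, r, 0, y₂ / κ, hD, hY, hxc, trivial, ?_, ?_⟩
    · change (Crv A B).Nonsingular (e₁ + (e₂ - e₁) * x₀) (κ * (y₂ / κ))
      rw [← hx₂', mul_div_cancel₀ _ hκ0]
      exact hxy₂
    · apply gg_some_congr
      · exact hx₂'
      · change y₂ = κ * (y₂ / κ)
        rw [mul_div_cancel₀ _ hκ0]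
  have h2T : (2 : ℕ) • (.some e₁ 0 hT : (Crv A B).Point) = 0 := by
    rw [two_nsmul]
    exact Point.add_self_of_Y_eq (by simp)
  have h8 : (N * 2) • a = (2 : ℕ) • (.some x₂ y₂ hxy₂ : (Crv A B).Point) := by
    rw [mul_nsmul, hNa, ← hsum, nsmul_add, h2T, add_zero]
  rw [h8]
  exact AddSubgroup.nsmul_mem _ (AddSubgroup.subset_closure hgen) _

end start

section final

open Classical in
theorem iso_main (A₀ B₀ : AlgebraicClosure ℚ) [(Crv A₀ B₀).IsElliptic] (a : (Crv A₀ B₀).Point) :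
    ∃ Γ : ∀ A B : AlgebraicClosure ℚ, AddSubgroup (Crv A B).Point,
      a ∈ Γ A₀ B₀ ∧
      (∀ A B : AlgebraicClosure ℚ, (Crv A B).IsElliptic →
        (∀ (n : ℕ) (P : (Crv A B).Point), n ≠ 0 → n • P ∈ Γ A B → P ∈ Γ A B) ∧
        ∃ b : ℕ → (Crv A B).Point, LinearIndependent ℤ b ∧ ∀ i, b i ∈ Γ A B) ∧
      ∀ (m : ℕ) (_ : 2 ≤ m) (A B : Fin m → AlgebraicClosure ℚ)
        [∀ i, (Crv (A i) (B i)).IsElliptic] (z : MPt A B →₀ ℤ),
        (∀ Q ∈ z.support, ∀ i, Q i ∈ Γ (A i) (B i)) →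
        z.sum (fun _ n => n) = 0 → (∀ i, z.sum (fun Q n => n • Q i) = 0) →
        z.sum (fun Q n => (n : ℚ) • Mcl Q) = 0 := by
  have halg : Algebra.IsAlgebraic ℚ (AlgebraicClosure ℚ) := AlgebraicClosure.isAlgebraic ℚ
  let ι : AlgebraicClosure ℚ →+* PadicAlgCl 2 :=
    (IsAlgClosed.lift : AlgebraicClosure ℚ →ₐ[ℚ] PadicAlgCl 2)
  obtain ⟨x₀, hx0, hx, ha⟩ := exists_x0 ι a
  have hx1 : x₀ ≠ 1 := by
    rintro rfl
    rw [map_one, norm_one] at hx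
    norm_num at hx
  refine ⟨fun A B => isoGamma x₀ A B, ha, ?_, ?_⟩
  · intro A B hE
    refine ⟨fun n P hn h => isoGamma_div hn h, ?_⟩
    obtain ⟨b, hb, hbg⟩ := exists_independent_seq (fun b => b ∈ gens x₀ A B) (fun F => by
      obtain ⟨b, hb1, hb2⟩ := core_iso ι hx0 hx F
      exact ⟨b, hb1, hb2⟩)
    exact ⟨b, hb, fun i => gens_subset_isoGamma (hbg i)⟩
  · intro m hm A B _ z hz hdeg halb
    have : Nontrivial (Fin m) := Fin.nontrivial_iff_two_le.mpr hm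
    refine mfold_zero (fun i => isoGamma x₀ (A i) (B i)) ?_ z hz hdeg halb
    intro i j _ a ha b hb
    exact symb_isoGamma hx0 hx1 ha hb

end final

end AlbCH
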