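import Pool.Agent.Lib.MP_2eeeac_ag.Iso.Final

/-! Module GS: the groups `isoGamma` are equivariant under homomorphisms of fields. -/

namespace AlbCH

open WeierstrassCurve WeierstrassCurve.Affine

section equivariance

variable {k K : Type*} [Field k] [Field K]

theorem map_lX (f : k →+* K) (r X : k) : f (lX r X) = lX (f r) (f X) := by
  unfold lX
  simp only [map_div₀, map_mul, map_sub, map_add, map_pow, map_one, map_ofNat]

theorem Adm.map (f : k →+* K) (r : ℕ → k) (n : ℕ) {X : k} (h : Adm r n X) :
    Adm (fun j => f (r j)) n (f X) := by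
  induction n generalizing X with
  | zero => trivial
  | succ n ih =>
    refine ⟨fun h1 => h.1 (f.injective (by rw [h1, map_one])), ?_⟩
    have h2 := ih h.2
    rwa [map_lX] at h2

/-- The generating sets are mapped to each other by homomorphisms of fields. -/
theorem gens_map (f : k →+* K) [DecidableEq k] [DecidableEq K] {A B x₀ : k} {A' B' x₀' : K}
    (hA : f A = A') (hB : f B = B') (hx : f x₀ = x₀') {P : (Crv A B).Point}
    (hP : P ∈ gens x₀ A B) : mapPt f hA hB P ∈ gens x₀' A' B' := by
  subst hA hB hx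
  obtain ⟨e₁, e₂, e₃, κ, c, r, n, Y, hD, hY, hxc, hAdm, hns, rfl⟩ := hP
  have hX : f (e₁ + (e₂ - e₁) * chX r n x₀)
      = f e₁ + (f e₂ - f e₁) * chX (fun j => f (r j)) n (f x₀) := by
    rw [map_add, map_mul, map_sub, (map_ch f r (fun j => f (r j)) n (fun _ _ => rfl) x₀ Y).1]
  have hY' : f (κ * chY r n x₀ Y) = f κ * chY (fun j => f (r j)) n (f x₀) (f Y) := by
    rw [map_mul, (map_ch f r (fun j => f (r j)) n (fun _ _ => rfl) x₀ Y).2]
  have hns' : (Crv (f A) (f B)).Nonsingular
      (f e₁ + (f e₂ - f e₁) * chX (fun j => f (r j)) n (f x₀))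
      (f κ * chY (fun j => f (r j)) n (f x₀) (f Y)) := by
    rw [← hX, ← hY']
    exact nonsing_map f rfl rfl hns
  refine ⟨f e₁, f e₂, f e₃, f κ, fun j => f (c j), fun j => f (r j), n, f Y, dat_map f hD, ?_,
    ?_, hAdm.map f r n, hns', ?_⟩
  · have := congrArg f hY
    simpa only [map_mul, map_pow, map_sub, map_one] using this
  · intro h
    exact hxc (f.injective h)
  · rw [mapPt_some, Point.some.injEq]
    exact ⟨hX, hY'⟩

/-- The groups `isoGamma` are mapped to each other by homomorphisms of fields. -/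
theorem isoGamma_map (f : k →+* K) [DecidableEq k] [DecidableEq K] {A B x₀ : k} {A' B' x₀' : K}
    (hA : f A = A') (hB : f B = B') (hx : f x₀ = x₀') {P : (Crv A B).Point}
    (hP : P ∈ isoGamma x₀ A B) : mapPt f hA hB P ∈ isoGamma x₀' A' B' := by
  obtain ⟨n, hn, hP⟩ := hP
  refine ⟨n, hn, ?_⟩
  rw [← map_nsmul]
  have h : AddSubgroup.closure (gens x₀ A B)
      ≤ (AddSubgroup.closure (gens x₀' A' B')).comap (mapPt f hA hB) := by
    rw [AddSubgroup.closure_le]
    intro Q hQ
    exact AddSubgroup.subset_closure (gens_map f hA hB hx hQ)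
  exact h hP

/-- Equivariance under the automorphisms which fix `x₀`. -/
theorem isoGamma_equivariant [DecidableEq k] (s : k ≃+* k) {x₀ : k} (h : s x₀ = x₀)
    {A B A' B' : k} (hA : (s : k →+* k) A = A') (hB : (s : k →+* k) B = B')
    {P : (Crv A B).Point} :
    mapPt (s : k →+* k) hA hB P ∈ isoGamma x₀ A' B' ↔ P ∈ isoGamma x₀ A B := by
  constructor
  · intro hP
    have hA2 : (s.symm : k →+* k) A' = A := by rw [← hA]; simp
    have hB2 : (s.symm : k →+* k) B' = B := by rw [← hB]; simp
    have hx2 : (s.symm : k →+* k) x₀ = x₀ := by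
      have := s.symm_apply_apply x₀
      rw [h] at this
      exact this
    have h1 := isoGamma_map (s.symm : k →+* k) hA2 hB2 hx2 hP
    have h2 : mapPt (s.symm : k →+* k) hA2 hB2 (mapPt (s : k →+* k) hA hB P) = P := by
      rcases P with _ | ⟨x, y, hxy⟩
      · rfl
      · rw [mapPt_some, mapPt_some, Point.some.injEq]
        exact ⟨s.symm_apply_apply x, s.symm_apply_apply y⟩
    rwa [h2] at h1
  · exact isoGamma_map (s : k →+* k) hA hB h

end equivariance

end AlbCH
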