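import Pool.Agent.Lib.MP_2eeeac_ag.Iso.Tower

/-!
# Module N1: norms in a Landen tower
-/

namespace AlbCH

open WeierstrassCurve WeierstrassCurve.Affine

section N1
variable {K : Type*} [NormedField K] [IsUltrametricDist K] [CharZero K]

omit [CharZero K] in
private theorem N1_add {x y : K} (h : ‖x‖ < ‖y‖) : ‖x + y‖ = ‖y‖ := by
  rw [IsUltrametricDist.norm_add_eq_max_of_norm_ne_norm h.ne, max_eq_right h.le]

omit [CharZero K] in
private theorem N1_sub {x y : K} (h : ‖x‖ < ‖y‖) : ‖x - y‖ = ‖y‖ := by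
  rw [sub_eq_add_neg, N1_add (by rwa [norm_neg]), norm_neg]

omit [CharZero K] in
private theorem N1_le {x y : K} {B : ℝ} (hx : ‖x‖ ≤ B) (hy : ‖y‖ ≤ B) : ‖x + y‖ ≤ B :=
  (IsUltrametricDist.norm_add_le_max x y).trans (max_le hx hy)

omit [IsUltrametricDist K] [CharZero K] in
private theorem N1_four (h2 : ‖(2 : K)‖ = 1 / 2) : ‖(4 : K)‖ = 1 / 4 := by
  rw [show (4 : K) = 2 * 2 by norm_num, norm_mul, h2]
  norm_num

omit [CharZero K] in
private theorem N1_step (h2 : ‖(2 : K)‖ = 1 / 2) {c r c' : K} (hr : r ^ 2 = c)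
    (hc' : c' * (1 + r) ^ 2 = 4 * r) (h0 : ‖c‖ ≤ 1) (h1 : ‖1 - c‖ = 1) :
    ‖1 + r‖ = 1 ∧ ‖1 - r‖ = 1 ∧ ‖r‖ ^ 2 = ‖c‖ ∧ ‖c'‖ = ‖r‖ / 4 ∧ ‖c'‖ ≤ 1 / 4 ∧ ‖1 - c'‖ = 1 := by
  have h3 : ‖r‖ ^ 2 = ‖c‖ := by rw [← norm_pow, hr]
  have h4 : ‖r‖ ≤ 1 := by
    by_contra h
    push Not at h
    nlinarith
  have h5 : ‖1 + r‖ ≤ 1 := N1_le (by rw [norm_one]) h4
  have h6 : ‖1 - r‖ ≤ 1 := by
    rw [sub_eq_add_neg]
    exact N1_le (by rw [norm_one]) (by rwa [norm_neg])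
  have h7 : ‖1 + r‖ * ‖1 - r‖ = 1 := by
    rw [← norm_mul, show (1 + r) * (1 - r) = 1 - c by rw [← hr]; ring, h1]
  have h8 : ‖1 + r‖ = 1 := by nlinarith [norm_nonneg (1 + r), norm_nonneg (1 - r)]
  have h9 : ‖1 - r‖ = 1 := by rwa [h8, one_mul] at h7
  have h10 : ‖c'‖ = ‖r‖ / 4 := by
    have h := congrArg norm hc'
    rw [norm_mul, norm_pow, h8, one_pow, mul_one, norm_mul, N1_four h2] at h
    rw [h]; ring
  have h11 : ‖c'‖ ≤ 1 / 4 := by rw [h10]; linarith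
  refine ⟨h8, h9, h3, h10, h11, ?_⟩
  rw [norm_sub_rev, N1_sub (by rw [norm_one]; linarith), norm_one]

omit [CharZero K] in
theorem tower_norms (h2 : ‖(2 : K)‖ = 1 / 2) {c r : ℕ → K} (h : Tower c r) (h0 : ‖c 0‖ ≤ 1)
    (h1 : ‖1 - c 0‖ = 1) (n : ℕ) :
    ‖c n‖ ≤ 1 ∧ ‖1 - c n‖ = 1 ∧ ‖1 + r n‖ = 1 ∧ ‖1 - r n‖ = 1 ∧ ‖r n‖ ^ 2 = ‖c n‖ ∧
      ‖c (n + 1)‖ = ‖r n‖ / 4 := by
  have key : ‖c n‖ ≤ 1 ∧ ‖1 - c n‖ = 1 := by
    induction n with
    | zero => exact ⟨h0, h1⟩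
    | succ n ih =>
      have h3 := N1_step h2 (h.sq n) (h.succ n) ih.1 ih.2
      exact ⟨h3.2.2.2.2.1.trans (by norm_num), h3.2.2.2.2.2⟩
  have h3 := N1_step h2 (h.sq n) (h.succ n) key.1 key.2
  exact ⟨key.1, key.2, h3.1, h3.2.1, h3.2.2.1, h3.2.2.2.1⟩

theorem tower_large (h2 : ‖(2 : K)‖ = 1 / 2) {c r : ℕ → K} (h : Tower c r) (h0 : ‖c 0‖ ≤ 1)
    (h1 : ‖1 - c 0‖ = 1) : ∃ n₁, ∀ n, n₁ ≤ n → 1 / 64 < ‖c n‖ := by
  have hpos : ∀ n, 0 < ‖c n‖ := fun n => norm_pos_iff.2 (h.facts n).1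
  -- `t = 16 ‖c‖`
  have hstep : ∀ n, (16 * ‖c (n + 1)‖) ^ 2 = 16 * ‖c n‖ := by
    intro n
    obtain ⟨-, -, -, -, h3, h4⟩ := tower_norms h2 h h0 h1 n
    rw [h4, ← h3]; ring
  have hsucc : ∀ n, 1 / 64 < ‖c n‖ → 1 / 64 < ‖c (n + 1)‖ := by
    intro n hn
    by_contra hcon
    push Not at hcon
    have h3 := hstep n
    have h4 := hpos (n + 1)
    nlinarith
  have hex : ∃ n, 1 / 64 < ‖c n‖ := by
    by_contra hcon
    push Not at hcon
    have hdbl : ∀ n, 2 * (16 * ‖c n‖) ≤ 16 * ‖c (n + 1)‖ := by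
      intro n
      apply le_of_sq_le_sq _ (by positivity)
      rw [hstep]
      have h3 := hcon n
      have h4 := hpos n
      nlinarith
    have hgrow : ∀ n : ℕ, 2 ^ n * (16 * ‖c 0‖) ≤ 16 * ‖c n‖ := by
      intro n
      induction n with
      | zero => simp
      | succ n ih =>
        calc 2 ^ (n + 1) * (16 * ‖c 0‖) = 2 * (2 ^ n * (16 * ‖c 0‖)) := by ring
          _ ≤ 2 * (16 * ‖c n‖) := by linarith
          _ ≤ _ := hdbl n
    have hc0 : 0 < 16 * ‖c 0‖ := by linarith [hpos 0]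
    obtain ⟨n, hn⟩ := pow_unbounded_of_one_lt (1 / (16 * ‖c 0‖)) (by norm_num : (1 : ℝ) < 2)
    rw [div_lt_iff₀ hc0] at hn
    have h3 := hgrow n
    have h4 := hcon n
    linarith
  obtain ⟨n₁, hn₁⟩ := hex
  refine ⟨n₁, fun n hn => ?_⟩
  induction n, hn using Nat.le_induction with
  | base => exact hn₁
  | succ n _ ih => exact hsucc n ih

theorem tower_sep (h2 : ‖(2 : K)‖ = 1 / 2) {c r c' r' : ℕ → K} (h : Tower c r)
    (h' : Tower c' r') (h0 : ‖c 0‖ ≤ 1) (h1 : ‖1 - c 0‖ = 1) (hc : c' 0 = c 0)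
    (hr : r' 0 = - r 0) (n : ℕ) :
    ‖c' (n + 1)‖ = ‖c (n + 1)‖ ∧ (‖c (n + 1) - c' (n + 1)‖ / ‖c (n + 1)‖) ^ (2 ^ n) = 1 / 2 := by
  have h0' : ‖c' 0‖ ≤ 1 := by rw [hc]; exact h0
  have h1' : ‖1 - c' 0‖ = 1 := by rw [hc]; exact h1
  have hN := tower_norms h2 h h0 h1
  have hN' := tower_norms h2 h' h0' h1'
  induction n with
  | zero =>
    obtain ⟨-, -, h3, h4, h5, h6⟩ := hN 0
    obtain ⟨-, -, h3', h4', h5', h6'⟩ := hN' 0
    have hrr : ‖r' 0‖ = ‖r 0‖ := by rw [hr, norm_neg]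
    have hr0 : 0 < ‖r 0‖ := norm_pos_iff.2 (h.facts 0).2.2.1
    refine ⟨by rw [h6, h6', hrr], ?_⟩
    have e1 := h.succ 0
    have e2 := h'.succ 0
    rw [hr] at e2
    have hA : (1 : K) + r 0 ≠ 0 := (h.facts 0).2.2.2.1
    have hB : (1 : K) - r 0 ≠ 0 := (h.facts 0).2.2.2.2
    have e3 : (c (0 + 1) - c' (0 + 1)) * ((1 + r 0) ^ 2 * (1 - r 0) ^ 2) =
        2 * (4 * (r 0 * (1 + c 0))) := by
      have e4 : c' (0 + 1) * (1 - r 0) ^ 2 = -(4 * r 0) := by linear_combination e2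
      rw [← h.sq 0]
      linear_combination (1 - r 0) ^ 2 * e1 - (1 + r 0) ^ 2 * e4
    have h7 : ‖(1 : K) + c 0‖ = 1 := by
      have h8 : (1 : K) + c 0 = 2 * c 0 + (1 - c 0) := by ring
      rw [h8, N1_add, h1]
      rw [norm_mul, h2, h1]
      linarith
    have h8 := congrArg norm e3
    rw [norm_mul, norm_mul, norm_pow, norm_pow, h3, h4, norm_mul, norm_mul, norm_mul, h2,
      N1_four h2, h7] at h8
    have h9 : ‖c (0 + 1) - c' (0 + 1)‖ = ‖r 0‖ / 8 := by linarith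
    rw [h9, h6, pow_zero, pow_one]
    field_simp
    norm_num
  | succ n ih =>
    obtain ⟨ih1, ih2⟩ := ih
    obtain ⟨-, -, -, -, -, hc4⟩ := hN n
    obtain ⟨hcn, -, h3, h4, h5, h6⟩ := hN (n + 1)
    obtain ⟨-, -, h3', h4', h5', h6'⟩ := hN' (n + 1)
    have hr0 : 0 < ‖r (n + 1)‖ := norm_pos_iff.2 (h.facts (n + 1)).2.2.1
    have hrr : ‖r' (n + 1)‖ = ‖r (n + 1)‖ := by
      have : ‖r' (n + 1)‖ ^ 2 = ‖r (n + 1)‖ ^ 2 := by rw [h5, h5', ih1]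
      exact (sq_eq_sq₀ (norm_nonneg _) (norm_nonneg _)).1 this
    refine ⟨by rw [h6, h6', hrr], ?_⟩
    have hρ : 0 < ‖c (n + 1)‖ := norm_pos_iff.2 (h.facts (n + 1)).1
    -- the ratio is at least one half
    set D := ‖c (n + 1) - c' (n + 1)‖ with hD
    set q := D / ‖c (n + 1)‖ with hq
    have hq0 : 0 ≤ q := by positivity
    have hD1 : D ≤ ‖c (n + 1)‖ := by
      rw [hD, sub_eq_add_neg]
      exact N1_le le_rfl (by rw [norm_neg, ih1])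
    have hq1 : q ≤ 1 := by rw [hq, div_le_one hρ]; exact hD1
    have hqh : 1 / 2 ≤ q := by
      rw [← ih2]
      exact pow_le_of_le_one hq0 hq1 (pow_ne_zero n (by norm_num))
    have hD2 : ‖c (n + 1)‖ / 2 ≤ D := by
      rw [hq, le_div_iff₀ hρ] at hqh
      linarith
    have hfac : ‖r (n + 1) - r' (n + 1)‖ * ‖r (n + 1) + r' (n + 1)‖ = D := by
      rw [← norm_mul, hD]
      congr 1
      rw [← h.sq, ← h'.sq]; ring
    have heq : ‖r (n + 1) - r' (n + 1)‖ = ‖r (n + 1) + r' (n + 1)‖ := by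
      by_contra hne
      have h7 : ‖2 * r' (n + 1)‖ = max ‖r (n + 1) + r' (n + 1)‖ ‖r (n + 1) - r' (n + 1)‖ := by
        have h8 : 2 * r' (n + 1) = (r (n + 1) + r' (n + 1)) + -(r (n + 1) - r' (n + 1)) := by ring
        rw [h8, IsUltrametricDist.norm_add_eq_max_of_norm_ne_norm (by rw [norm_neg]; exact Ne.symm hne),
          norm_neg]
      rw [norm_mul, h2, hrr] at h7
      have h8 : ‖r (n + 1) + r' (n + 1)‖ ≤ 1 / 2 * ‖r (n + 1)‖ := by rw [h7]; exact le_max_left _ _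
      have h9 : ‖r (n + 1) - r' (n + 1)‖ ≤ 1 / 2 * ‖r (n + 1)‖ := by rw [h7]; exact le_max_right _ _
      have h10 : D ≤ (1 / 2 * ‖r (n + 1)‖) * (1 / 2 * ‖r (n + 1)‖) := by
        rw [← hfac]
        exact mul_le_mul h9 h8 (norm_nonneg _) (by positivity)
      have h11 : (1 / 2 * ‖r (n + 1)‖) * (1 / 2 * ‖r (n + 1)‖) = ‖c (n + 1)‖ / 4 := by
        rw [← h5]; ring
      linarith
    have hsq : ‖r (n + 1) - r' (n + 1)‖ ^ 2 = D := by rw [pow_two]; nth_rewrite 2 [heq]; exact hfac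
    -- the next difference
    have e1 := h.succ (n + 1)
    have e2 := h'.succ (n + 1)
    have e3 : (c (n + 1 + 1) - c' (n + 1 + 1)) * ((1 + r (n + 1)) ^ 2 * (1 + r' (n + 1)) ^ 2) =
        4 * ((r (n + 1) - r' (n + 1)) * (1 - r (n + 1) * r' (n + 1))) := by
      linear_combination (1 + r' (n + 1)) ^ 2 * e1 - (1 + r (n + 1)) ^ 2 * e2
    have h7 : ‖(1 : K) - r (n + 1) * r' (n + 1)‖ = 1 := by
      rw [norm_sub_rev, N1_sub, norm_one]
      rw [norm_mul, hrr, norm_one, ← pow_two, h5, hc4]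
      have h8 := (hN n).2.2.2.2.1
      have h9 := (hN n).1
      nlinarith [norm_nonneg (r n)]
    have h8 := congrArg norm e3
    rw [norm_mul, norm_mul, norm_pow, norm_pow, h3, h3', norm_mul, norm_mul, N1_four h2, h7] at h8
    have h9 : ‖c (n + 1 + 1) - c' (n + 1 + 1)‖ = ‖r (n + 1) - r' (n + 1)‖ / 4 := by linarith
    have h10 : (‖c (n + 1 + 1) - c' (n + 1 + 1)‖ / ‖c (n + 1 + 1)‖) ^ 2 = q := by
      rw [h9, h6, hq, div_div_div_cancel_right₀ (by norm_num : (4 : ℝ) ≠ 0), div_pow, hsq, h5]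
    rw [pow_succ 2 n, mul_comm, pow_mul, h10, ih2]

/-- along the chain starting with a small `X`, all `X` stay small -/
theorem chain_small (h2 : ‖(2 : K)‖ = 1 / 2) {c r : ℕ → K} (h : Tower c r) (h0 : ‖c 0‖ ≤ 1)
    (h1 : ‖1 - c 0‖ = 1) (n : ℕ) {X : K} (hX0 : X ≠ 0) (hX : ‖X‖ < ‖c n‖) :
    Adm r n X ∧ chX r n X ≠ 0 ∧ ‖chX r n X‖ < ‖c 0‖ := by
  have hN := tower_norms h2 h h0 h1
  induction n generalizing X with
  | zero => exact ⟨trivial, hX0, hX⟩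
  | succ n ih =>
    obtain ⟨hcn, -, h3, h4, h5, h6⟩ := hN n
    have hr1 : ‖r n‖ ≤ 1 := by
      by_contra hcon
      push Not at hcon
      nlinarith
    have hr0 : 0 < ‖r n‖ := norm_pos_iff.2 (h.facts n).2.2.1
    have hX1 : ‖X‖ < 1 := by rw [h6] at hX; linarith
    have hXne : X ≠ 1 := by
      rintro rfl
      rw [norm_one] at hX1
      exact lt_irrefl _ hX1
    have hXc : ‖X - c (n + 1)‖ = ‖c (n + 1)‖ := N1_sub hX
    have hXo : ‖X - 1‖ = 1 := by rw [N1_sub (by rwa [norm_one]), norm_one]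
    have h7 : ‖lX (r n) X‖ = ‖X‖ * ‖r n‖ := by
      rw [lX_eq (r n) X (c (n + 1)) (h.succ n), norm_div, norm_mul, norm_pow, h3, norm_mul, hXc,
        norm_mul, hXo, N1_four h2, h6]
      ring
    have h8 : lX (r n) X ≠ 0 := by
      rw [← norm_pos_iff, h7]
      exact mul_pos (norm_pos_iff.2 hX0) hr0
    have h9 : ‖lX (r n) X‖ < ‖c n‖ := by
      rw [h7, ← h5, pow_two]
      rw [h6] at hX
      have : ‖X‖ < ‖r n‖ := by linarith
      exact mul_lt_mul_of_pos_right this hr0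
    obtain ⟨h10, h11, h12⟩ := ih h8 h9
    exact ⟨⟨hXne, h10⟩, h11, h12⟩

end N1

end AlbCH
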