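import Pool.Agent.Lib.MP_2eeeac_ag.Basic

/-! Module N4: Galois theory and Krasner's lemma for square roots. -/

namespace AlbCH

open WeierstrassCurve WeierstrassCurve.Affine

section N4

theorem exists_conj_of_notMem {p : ℕ} [Fact p.Prime] (L : IntermediateField ℚ_[p] (PadicAlgCl p))
    (y : PadicAlgCl p) (hy : y ∉ L) (hy2 : y ^ 2 ∈ L) :
    ∃ τ : PadicAlgCl p ≃ₐ[ℚ_[p]] PadicAlgCl p, (∀ x ∈ L, τ x = x) ∧ τ y = -y := by
  have h1 : ¬ ∀ τ : PadicAlgCl p ≃ₐ[L] PadicAlgCl p, τ y = y := by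
    intro hall
    have := (InfiniteGalois.mem_range_algebraMap_iff_fixed (k := L) (K := PadicAlgCl p) y).2
      hall
    obtain ⟨q, hq⟩ := this
    apply hy
    rw [← hq]
    exact q.2
  push Not at h1
  obtain ⟨τ, hτ⟩ := h1
  refine ⟨τ.restrictScalars ℚ_[p], fun x hx => ?_, ?_⟩
  · exact τ.commutes ⟨x, hx⟩
  · have h2 : (τ y) ^ 2 = y ^ 2 := by
      rw [← map_pow]
      exact τ.commutes ⟨y ^ 2, hy2⟩
    rcases sq_eq_sq_iff_eq_or_eq_neg.1 h2 with h3 | h3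
    · exact absurd h3 hτ
    · exact h3

theorem norm_two_alg : ‖(2 : PadicAlgCl 2)‖ = 1 / 2 := by
  have h1 : (2 : PadicAlgCl 2) = algebraMap ℚ_[2] (PadicAlgCl 2) 2 := (map_ofNat _ 2).symm
  have h2 : ‖((2 : ℕ) : ℚ_[2])‖ = ((2 : ℕ) : ℝ)⁻¹ := Padic.norm_p
  rw [h1, PadicAlgCl.norm_extends]
  rw [Nat.cast_ofNat, Nat.cast_ofNat] at h2
  rw [h2]
  norm_num

private theorem n4_norm_equiv (τ : PadicAlgCl 2 ≃ₐ[ℚ_[2]] PadicAlgCl 2) (x : PadicAlgCl 2) :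
    ‖τ x‖ = ‖x‖ := by
  rw [← PadicAlgCl.spectralNorm_eq, ← PadicAlgCl.spectralNorm_eq]
  exact (spectralNorm_eq_of_equiv τ x).symm

theorem exists_sqrt_fixed (w : PadicAlgCl 2) (hw : ‖w - 1‖ < 1 / 4) :
    ∃ z : PadicAlgCl 2, z ^ 2 = w ∧
      ∀ τ : PadicAlgCl 2 ≃ₐ[ℚ_[2]] PadicAlgCl 2, τ w = w → τ z = z := by
  -- a square root which is closer to `1` than to `-1`
  have key : ∃ z : PadicAlgCl 2, z ^ 2 = w ∧ ‖z - 1‖ < 1 / 2 ∧ 1 / 2 ≤ ‖z + 1‖ := by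
    obtain ⟨z, hz⟩ := IsAlgClosed.exists_pow_nat_eq w (n := 2) (by norm_num)
    have hprod : ‖z - 1‖ * ‖z + 1‖ < 1 / 4 := by
      rw [← norm_mul]
      have : (z - 1) * (z + 1) = w - 1 := by rw [← hz]; ring
      rw [this]
      exact hw
    have hmax : (1 / 2 : ℝ) ≤ max ‖z + 1‖ ‖z - 1‖ := by
      have h1 : (2 : PadicAlgCl 2) = (z + 1) + (-(z - 1)) := by ring
      rw [← norm_two_alg, h1]
      refine (PadicAlgCl.isNonarchimedean 2 _ _).trans ?_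
      rw [norm_neg]
    have hn1 := norm_nonneg (z - 1)
    have hn2 := norm_nonneg (z + 1)
    rcases le_max_iff.1 hmax with h | h
    · exact ⟨z, hz, by nlinarith, h⟩
    · refine ⟨-z, by rw [neg_sq, hz], ?_, ?_⟩
      · have : -z - 1 = -(z + 1) := by ring
        rw [this, norm_neg]
        nlinarith
      · have : -z + 1 = -(z - 1) := by ring
        rw [this, norm_neg]
        exact h
  obtain ⟨z, hz, h1, h2⟩ := key
  refine ⟨z, hz, fun τ hτ => ?_⟩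
  have h3 : (τ z) ^ 2 = z ^ 2 := by rw [← map_pow, hz, hτ]
  rcases sq_eq_sq_iff_eq_or_eq_neg.1 h3 with h4 | h4
  · exact h4
  · exfalso
    have h5 : ‖τ (z - 1)‖ = ‖z - 1‖ := n4_norm_equiv τ _
    rw [map_sub, map_one, h4] at h5
    have h6 : -z - 1 = -(z + 1) := by ring
    rw [h6, norm_neg] at h5
    linarith

end N4

end AlbCH
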