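import Pool.Agent.Lib.MP_2eeeac_ag.Iso.Tower
import Pool.Agent.Lib.MP_2eeeac_ag.Iso.N1
import Pool.Agent.Lib.MP_2eeeac_ag.Iso.N4

/-! Module N2: ramification is infinite. -/

namespace AlbCH

open WeierstrassCurve WeierstrassCurve.Affine

section N2

theorem norm_of_finite {p : ℕ} [Fact p.Prime] (L : IntermediateField ℚ_[p] (PadicAlgCl p))
    [FiniteDimensional ℚ_[p] L] :
    ∃ N : ℕ, N ≠ 0 ∧ ∀ x ∈ L, x ≠ 0 → ∃ m : ℤ, ‖x‖ ^ N = (p : ℝ) ^ m := by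
  refine ⟨Module.finrank ℚ_[p] L, Module.finrank_pos.ne', fun x hx hx0 => ?_⟩
  have hint : IsIntegral ℚ_[p] x := (Algebra.IsAlgebraic.isAlgebraic x).isIntegral
  have hintL : IsIntegral ℚ_[p] (⟨x, hx⟩ : L) := (Algebra.IsAlgebraic.isAlgebraic _).isIntegral
  -- the degree of the minimal polynomial
  have hdvd : (minpoly ℚ_[p] x).natDegree ∣ Module.finrank ℚ_[p] L := by
    have h1 := minpoly.degree_dvd hintL
    rwa [IntermediateField.minpoly_eq] at h1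
  obtain ⟨e, he⟩ := hdvd
  set d := (minpoly ℚ_[p] x).natDegree with hd
  have hd0 : d ≠ 0 := (minpoly.natDegree_pos hint).ne'
  have hcoeff : (minpoly ℚ_[p] x).coeff 0 ≠ 0 := minpoly.coeff_zero_ne_zero hint hx0
  have hnorm : ‖x‖ ^ d = ‖(minpoly ℚ_[p] x).coeff 0‖ := by
    have h1 := spectralNorm.spectralNorm_eq_norm_coeff_zero_rpow (K := ℚ_[p]) (L := PadicAlgCl p) x
    rw [PadicAlgCl.spectralNorm_eq] at h1
    rw [h1, ← Real.rpow_natCast, ← Real.rpow_mul (norm_nonneg _), ← hd,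
      one_div_mul_cancel (by exact_mod_cast hd0), Real.rpow_one]
  refine ⟨-((minpoly ℚ_[p] x).coeff 0).valuation * e, ?_⟩
  rw [he, pow_mul, hnorm, Padic.norm_eq_zpow_neg_valuation hcoeff, zpow_mul, zpow_natCast]

/-- if the towers become finite, all the elements lie in a finite extension -/
private theorem n2_finite (L : IntermediateField ℚ_[2] (PadicAlgCl 2))
    [FiniteDimensional ℚ_[2] L] {r : ℕ → PadicAlgCl 2} {n₀ : ℕ}
    (h : ∀ n, n₀ ≤ n → r n ∈ L ⊔ IntermediateField.adjoin ℚ_[2] (r '' Set.Iio n)) :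
    ∃ M : IntermediateField ℚ_[2] (PadicAlgCl 2), FiniteDimensional ℚ_[2] M ∧ ∀ n, r n ∈ M := by
  have hfin : (r '' Set.Iio n₀).Finite := (Set.finite_Iio n₀).image r
  have : Finite (r '' Set.Iio n₀) := hfin.to_subtype
  have : FiniteDimensional ℚ_[2] (IntermediateField.adjoin ℚ_[2] (r '' Set.Iio n₀)) :=
    IntermediateField.finiteDimensional_adjoin fun x _ =>
      (Algebra.IsAlgebraic.isAlgebraic x).isIntegral
  refine ⟨L ⊔ IntermediateField.adjoin ℚ_[2] (r '' Set.Iio n₀), inferInstance, ?_⟩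
  intro n
  induction n using Nat.strong_induction_on with
  | _ n ih =>
    rcases lt_or_ge n n₀ with hn | hn
    · exact (le_sup_right : _ ≤ L ⊔ IntermediateField.adjoin ℚ_[2] (r '' Set.Iio n₀))
        (IntermediateField.subset_adjoin _ _ ⟨n, hn, rfl⟩)
    · refine (sup_le le_sup_left ?_ : L ⊔ IntermediateField.adjoin ℚ_[2] (r '' Set.Iio n) ≤
        L ⊔ IntermediateField.adjoin ℚ_[2] (r '' Set.Iio n₀)) (h n hn)
      rw [IntermediateField.adjoin_le_iff]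
      rintro _ ⟨j, hj, rfl⟩
      exact ih j hj

theorem exists_ramified (L : IntermediateField ℚ_[2] (PadicAlgCl 2))
    [FiniteDimensional ℚ_[2] L] {c r c' r' : ℕ → PadicAlgCl 2} (h : Tower c r)
    (h' : Tower c' r') (h0 : ‖c 0‖ ≤ 1) (h1 : ‖1 - c 0‖ = 1) (hc : c' 0 = c 0)
    (hr : r' 0 = - r 0) :
    (∀ n₀, ∃ n, n₀ ≤ n ∧ r n ∉ L ⊔ IntermediateField.adjoin ℚ_[2] (r '' Set.Iio n)) ∨
    (∀ n₀, ∃ n, n₀ ≤ n ∧ r' n ∉ L ⊔ IntermediateField.adjoin ℚ_[2] (r' '' Set.Iio n)) := by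
  by_contra hcon
  rw [not_or] at hcon
  obtain ⟨hA, hB⟩ := hcon
  push Not at hA hB
  obtain ⟨n₀, hn₀⟩ := hA
  obtain ⟨n₁, hn₁⟩ := hB
  obtain ⟨M, hM, hrM⟩ := n2_finite L hn₀
  obtain ⟨M', hM', hrM'⟩ := n2_finite L hn₁
  have := hM
  have := hM'
  obtain ⟨N, hN0, hN⟩ := norm_of_finite (M ⊔ M')
  have hc1 : ∀ n, c n ∈ M ⊔ M' := fun n => by
    rw [← h.sq n]
    exact pow_mem ((le_sup_left : M ≤ M ⊔ M') (hrM n)) 2
  have hc2 : ∀ n, c' n ∈ M ⊔ M' := fun n => by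
    rw [← h'.sq n]
    exact pow_mem ((le_sup_right : M' ≤ M ⊔ M') (hrM' n)) 2
  obtain ⟨_, h3⟩ := tower_sep norm_two_alg h h' h0 h1 hc hr N
  set x : PadicAlgCl 2 := (c (N + 1) - c' (N + 1)) / c (N + 1) with hx
  have hxn : ‖x‖ ^ (2 ^ N) = 1 / 2 := by rw [hx, norm_div]; exact h3
  have hx0 : x ≠ 0 := by
    intro h4
    rw [h4, norm_zero, zero_pow (by positivity)] at hxn
    norm_num at hxn
  have hxM : x ∈ M ⊔ M' := div_mem (sub_mem (hc1 _) (hc2 _)) (hc1 _)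
  obtain ⟨m, hm⟩ := hN x hxM hx0
  have h5 : (2 : ℝ) ^ (m * (2 ^ N : ℕ)) = (2 : ℝ) ^ (-(N : ℤ)) := by
    have h6 : (‖x‖ ^ N) ^ (2 ^ N) = (1 / 2 : ℝ) ^ N := by
      rw [← pow_mul, mul_comm, pow_mul, hxn]
    rw [hm] at h6
    rw [zpow_mul, zpow_natCast, zpow_neg, zpow_natCast]
    rw [Nat.cast_ofNat] at h6
    rw [h6, one_div, inv_pow]
  have h6 : m * ((2 ^ N : ℕ) : ℤ) = -(N : ℤ) :=
    zpow_right_injective₀ (by norm_num : (0:ℝ) < 2) (by norm_num) h5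
  have h7 : ((2 ^ N : ℕ) : ℤ) ∣ (N : ℤ) := by
    rw [← dvd_neg, ← h6]
    exact dvd_mul_left _ _
  have h8 : 2 ^ N ∣ N := by exact_mod_cast h7
  have h9 := Nat.le_of_dvd (Nat.pos_of_ne_zero hN0) h8
  exact absurd (Nat.lt_two_pow_self (n := N)) (not_lt.2 h9)

end N2

end AlbCH
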