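import Pool.Agent.Lib.MP_2eeeac_ag.Basic

/-!
# `MP_2eeeac_ag`, module NT: points which are not torsion
-/

namespace AlbCH

open WeierstrassCurve WeierstrassCurve.Affine

section NT
variable {K : Type*} [NormedField K] [IsUltrametricDist K] [CharZero K] [DecidableEq K]

omit [IsUltrametricDist K] [CharZero K] [DecidableEq K] in
theorem nt_curve {A B e₁ e₂ e₃ x y : K} (hR : Roots A B e₁ e₂ e₃)
    (h : (Crv A B).Nonsingular x y) : y ^ 2 = (x - e₁) * (x - e₂) * (x - e₃) := by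
  have h1 := (crv_nonsing.mp h).1
  obtain ⟨hs, hA, hB⟩ := hR
  rw [h1, hA, hB]
  linear_combination x ^ 2 * hs

/-- duplication formula -/
theorem dbl_formula {A B e₁ e₂ e₃ x y : K} (hR : Roots A B e₁ e₂ e₃)
    (h : (Crv A B).Nonsingular x y) (hy : y ≠ 0) :
    ∃ (x' y' : K) (h' : (Crv A B).Nonsingular x' y'),
      (2 : ℕ) • (.some x y h : (Crv A B).Point) = .some x' y' h' ∧
      x' - e₁ = ((x - e₁) ^ 2 - (e₂ - e₁) * (e₃ - e₁)) ^ 2 / (4 * y ^ 2) := by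
  have h2 : (2 : K) ≠ 0 := two_ne_zero
  have hyy : y ≠ (Crv A B).negY x y := by
    intro h3
    have h4 : y = -y := by simpa [negY] using h3
    exact hy (by
      have h5 : 2 * y = 0 := by linear_combination h4
      exact (mul_eq_zero.mp h5).resolve_left h2)
  have hxy : ¬(x = x ∧ y = (Crv A B).negY x y) := fun h3 => hyy h3.2
  have hadd := Point.add_some (h₁ := h) (h₂ := h) hxy
  rw [two_nsmul, hadd]
  refine ⟨_, _, _, rfl, ?_⟩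
  have hcv := nt_curve hR h
  have hsl : (Crv A B).slope x x y y = (3 * x ^ 2 + A) / (2 * y) := by
    rw [slope_of_Y_ne rfl hyy]
    simp [negY]
    ring
  rw [hsl]
  simp only [addX]
  obtain ⟨hs, hA, hB⟩ := hR
  have he : e₃ = -e₁ - e₂ := by linear_combination hs
  subst he
  rw [div_pow]
  have h4 : (4 * y ^ 2 : K) ≠ 0 := mul_ne_zero (by norm_num) (pow_ne_zero 2 hy)
  rw [eq_div_iff h4]
  have h5 : ((3 * x ^ 2 + A) ^ 2 / (2 * y) ^ 2 + 0 * ((3 * x ^ 2 + A) / (2 * y)) - 0 - x - x - e₁) *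
      (4 * y ^ 2) = (3 * x ^ 2 + A) ^ 2 - (2 * x + e₁) * (4 * y ^ 2) := by
    field_simp
    ring
  rw [h5, hcv, hA]
  ring

/-- the normalised duplication formula -/
theorem nt_dbl {A B e₁ e₂ e₃ x y : K} (hR : Roots A B e₁ e₂ e₃) (h12 : e₁ ≠ e₂)
    (h : (Crv A B).Nonsingular x y) {X c : K} (hX : (x - e₁) / (e₂ - e₁) = X)
    (hc : (e₃ - e₁) / (e₂ - e₁) = c) (hX0 : X ≠ 0) (hX1 : X ≠ 1) (hXc : X ≠ c) :
    ∃ (x' y' : K) (h' : (Crv A B).Nonsingular x' y'),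
      (2 : ℕ) • (.some x y h : (Crv A B).Point) = .some x' y' h' ∧
      (x' - e₁) / (e₂ - e₁) = (X ^ 2 - c) ^ 2 / (4 * (X * (X - 1) * (X - c))) := by
  have hd : e₂ - e₁ ≠ 0 := sub_ne_zero.mpr (Ne.symm h12)
  have hx : x - e₁ = X * (e₂ - e₁) := by rw [← hX]; field_simp
  have hc' : e₃ - e₁ = c * (e₂ - e₁) := by rw [← hc]; field_simp
  have hx2 : x - e₂ = (X - 1) * (e₂ - e₁) := by linear_combination hx
  have hx3 : x - e₃ = (X - c) * (e₂ - e₁) := by linear_combination hx - hc'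
  have hcv := nt_curve hR h
  rw [hx, hx2, hx3] at hcv
  have hX1' : X - 1 ≠ 0 := sub_ne_zero.mpr hX1
  have hXc' : X - c ≠ 0 := sub_ne_zero.mpr hXc
  have hy : y ≠ 0 := by
    rintro rfl
    have h0 : X * (e₂ - e₁) * ((X - 1) * (e₂ - e₁)) * ((X - c) * (e₂ - e₁)) ≠ 0 :=
      mul_ne_zero (mul_ne_zero (mul_ne_zero hX0 hd) (mul_ne_zero hX1' hd)) (mul_ne_zero hXc' hd)
    exact h0 (by rw [← hcv]; ring)
  obtain ⟨x', y', h', hadd, hval⟩ := dbl_formula hR h hy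
  refine ⟨x', y', h', hadd, ?_⟩
  rw [hval, hcv, hx, hc']
  have h4 : (4 : K) ≠ 0 := by norm_num
  field_simp

omit [IsUltrametricDist K] [CharZero K] [DecidableEq K] in
theorem nt_norm_four (h2 : ‖(2 : K)‖ = 1 / 2) : ‖(4 : K)‖ = 1 / 4 := by
  have : (4 : K) = 2 * 2 := by norm_num
  rw [this, norm_mul, h2]
  norm_num

omit [CharZero K] [DecidableEq K] in
theorem nt_norm_sub {a b : K} (h : ‖b‖ < ‖a‖) : ‖a - b‖ = ‖a‖ := by
  rw [sub_eq_add_neg]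
  have h1 : ‖-b‖ < ‖a‖ := by rwa [norm_neg]
  rw [IsUltrametricDist.norm_add_eq_max_of_norm_ne_norm h1.ne']
  exact max_eq_left h1.le

omit [CharZero K] [DecidableEq K] in
theorem nt_norm_sub' {a b : K} (h : ‖a‖ < ‖b‖) : ‖a - b‖ = ‖b‖ := by
  rw [← norm_neg, neg_sub]
  exact nt_norm_sub h

/-- growth of the normalised abscissa `X = (x - e₁)/(e₂ - e₁)` under duplication -/
theorem dbl_growth (h2 : ‖(2 : K)‖ = 1 / 2) {A B e₁ e₂ e₃ x y : K} (hR : Roots A B e₁ e₂ e₃)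
    (h12 : e₁ ≠ e₂) (hc : ‖(e₃ - e₁) / (e₂ - e₁)‖ ≤ 1)
    (h : (Crv A B).Nonsingular x y) (hx : 1 < ‖(x - e₁) / (e₂ - e₁)‖) :
    ∃ (x' y' : K) (h' : (Crv A B).Nonsingular x' y'),
      (2 : ℕ) • (.some x y h : (Crv A B).Point) = .some x' y' h' ∧
      ‖(x' - e₁) / (e₂ - e₁)‖ = 4 * ‖(x - e₁) / (e₂ - e₁)‖ := by
  obtain ⟨X, hX⟩ : ∃ X, (x - e₁) / (e₂ - e₁) = X := ⟨_, rfl⟩
  obtain ⟨c, hc'⟩ : ∃ c, (e₃ - e₁) / (e₂ - e₁) = c := ⟨_, rfl⟩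
  rw [hc'] at hc
  rw [hX] at hx ⊢
  have hX0 : X ≠ 0 := by
    rintro rfl
    rw [norm_zero] at hx
    linarith
  have hX1 : X ≠ 1 := by
    rintro rfl
    rw [norm_one] at hx
    linarith
  have hXc : X ≠ c := by
    rintro rfl
    linarith
  obtain ⟨x', y', h', hadd, hval⟩ := nt_dbl hR h12 h hX hc' hX0 hX1 hXc
  refine ⟨x', y', h', hadd, ?_⟩
  have n1 : ‖X - 1‖ = ‖X‖ := nt_norm_sub (by rw [norm_one]; exact hx)
  have n2 : ‖X - c‖ = ‖X‖ := nt_norm_sub (lt_of_le_of_lt hc hx)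
  have n3 : ‖X ^ 2 - c‖ = ‖X‖ ^ 2 := by
    rw [nt_norm_sub, norm_pow]
    rw [norm_pow]
    nlinarith
  rw [hval, norm_div, norm_pow, n3, norm_mul, norm_mul, norm_mul, n1, n2, nt_norm_four h2]
  have hp : (0 : ℝ) < ‖X‖ := by linarith
  field_simp

/-- if `|X| > 1` then `2 ^ k P` has normalised abscissa of norm `4 ^ k |X|` -/
theorem nt_iter (h2 : ‖(2 : K)‖ = 1 / 2) {A B e₁ e₂ e₃ : K} (hR : Roots A B e₁ e₂ e₃)
    (h12 : e₁ ≠ e₂) (hc : ‖(e₃ - e₁) / (e₂ - e₁)‖ ≤ 1) (k : ℕ) {x y : K}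
    (h : (Crv A B).Nonsingular x y) (hx : 1 < ‖(x - e₁) / (e₂ - e₁)‖) :
    ∃ (x' y' : K) (h' : (Crv A B).Nonsingular x' y'),
      (2 ^ k : ℕ) • (.some x y h : (Crv A B).Point) = .some x' y' h' ∧
      ‖(x' - e₁) / (e₂ - e₁)‖ = 4 ^ k * ‖(x - e₁) / (e₂ - e₁)‖ := by
  induction k with
  | zero => exact ⟨x, y, h, by simp, by simp⟩
  | succ k ih =>
    obtain ⟨x₁, y₁, h₁, ha, hb⟩ := ih
    have hx1 : 1 < ‖(x₁ - e₁) / (e₂ - e₁)‖ := by
      rw [hb]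
      have : (1 : ℝ) ≤ 4 ^ k := one_le_pow₀ (by norm_num)
      nlinarith
    obtain ⟨x₂, y₂, h₂, hc2, hd⟩ := dbl_growth h2 hR h12 hc h₁ hx1
    refine ⟨x₂, y₂, h₂, ?_, ?_⟩
    · rw [pow_succ, mul_comm, mul_nsmul', ha, hc2]
    · rw [hd, hb, pow_succ]
      ring

theorem not_torsion_of_large (h2 : ‖(2 : K)‖ = 1 / 2) {A B e₁ e₂ e₃ x y : K}
    (hR : Roots A B e₁ e₂ e₃)
    (h12 : e₁ ≠ e₂) (hc : ‖(e₃ - e₁) / (e₂ - e₁)‖ ≤ 1)
    (h : (Crv A B).Nonsingular x y) (hx : 1 < ‖(x - e₁) / (e₂ - e₁)‖) (m : ℕ) (hm : m ≠ 0) :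
    m • (.some x y h : (Crv A B).Point) ≠ 0 := by
  intro h0
  have hinj : Function.Injective (fun k : ℕ => (2 ^ k : ℕ) • (.some x y h : (Crv A B).Point)) := by
    intro k l hkl
    simp only at hkl
    obtain ⟨x₁, y₁, h₁, ha, hb⟩ := nt_iter h2 hR h12 hc k h hx
    obtain ⟨x₂, y₂, h₂, ha', hb'⟩ := nt_iter h2 hR h12 hc l h hx
    rw [ha, ha', Point.some.injEq] at hkl
    rw [hkl.1, hb'] at hb
    have hp : (0 : ℝ) < ‖(x - e₁) / (e₂ - e₁)‖ := by linarith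
    have h3 := mul_right_cancel₀ hp.ne' hb
    have h4 := (pow_right_injective₀ (by norm_num : (0 : ℝ) < 4) (by norm_num)) h3
    exact h4.symm
  have hfin : (Set.range (fun k : ℕ => (2 ^ k : ℕ) • (.some x y h : (Crv A B).Point))).Finite := by
    refine Set.Finite.subset ((Set.finite_lt_nat m).image
      (fun j : ℕ => j • (.some x y h : (Crv A B).Point))) ?_
    rintro _ ⟨k, rfl⟩
    refine ⟨2 ^ k % m, Nat.mod_lt _ (Nat.pos_of_ne_zero hm), ?_⟩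
    have h3 := Nat.mod_add_div (2 ^ k) m
    show (2 ^ k % m) • (Point.some x y h : (Crv A B).Point) =
      (2 ^ k : ℕ) • (Point.some x y h : (Crv A B).Point)
    conv_rhs => rw [← h3]
    rw [add_nsmul, mul_nsmul, h0, smul_zero, add_zero]
  exact Set.infinite_range_of_injective hinj hfin

theorem not_torsion_of_small (h2 : ‖(2 : K)‖ = 1 / 2) {A B e₁ e₂ e₃ x y : K}
    (hR : Roots A B e₁ e₂ e₃)
    (h12 : e₁ ≠ e₂) (h13 : e₁ ≠ e₃) (hc : ‖(e₃ - e₁) / (e₂ - e₁)‖ ≤ 1)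
    (h : (Crv A B).Nonsingular x y) (hx0 : x ≠ e₁)
    (hx : ‖(x - e₁) / (e₂ - e₁)‖ < ‖(e₃ - e₁) / (e₂ - e₁)‖) (m : ℕ) (hm : m ≠ 0) :
    m • (.some x y h : (Crv A B).Point) ≠ 0 := by
  have hd : e₂ - e₁ ≠ 0 := sub_ne_zero.mpr (Ne.symm h12)
  obtain ⟨X, hX⟩ : ∃ X, (x - e₁) / (e₂ - e₁) = X := ⟨_, rfl⟩
  obtain ⟨c, hc'⟩ : ∃ c, (e₃ - e₁) / (e₂ - e₁) = c := ⟨_, rfl⟩
  have hc1 := hc
  rw [hc'] at hc hx
  rw [hX] at hx
  have hX0 : X ≠ 0 := by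
    rw [← hX]
    exact div_ne_zero (sub_ne_zero.mpr hx0) hd
  have hXl : ‖X‖ < 1 := lt_of_lt_of_le hx hc
  have hX1 : X ≠ 1 := by
    rintro rfl
    rw [norm_one] at hXl
    linarith
  have hXc : X ≠ c := by
    rintro rfl
    exact lt_irrefl _ hx
  obtain ⟨x', y', h', hadd, hval⟩ := nt_dbl hR h12 h hX hc' hX0 hX1 hXc
  have hp : (0 : ℝ) < ‖X‖ := norm_pos_iff.mpr hX0
  have n1 : ‖X - 1‖ = 1 := by
    rw [nt_norm_sub', norm_one]
    rw [norm_one]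
    exact hXl
  have n2 : ‖X - c‖ = ‖c‖ := nt_norm_sub' hx
  have n3 : ‖X ^ 2 - c‖ = ‖c‖ := by
    apply nt_norm_sub'
    rw [norm_pow]
    nlinarith
  have hcp : (0 : ℝ) < ‖c‖ := lt_trans hp hx
  have hbig : 1 < ‖(x' - e₁) / (e₂ - e₁)‖ := by
    rw [hval, norm_div, norm_pow, n3, norm_mul, norm_mul, norm_mul, n1, n2, nt_norm_four h2]
    rw [lt_div_iff₀ (by positivity)]
    nlinarith
  intro h0
  apply not_torsion_of_large h2 hR h12 hc1 h' hbig m hm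
  rw [← hadd, ← mul_nsmul', mul_comm, mul_nsmul', h0, smul_zero]

end NT

end AlbCH
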